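import Pool.Agent.T6.H13.GP.Flat

/-!
# The images of the morphisms between objects of `G` form an admissible class
-/

set_option autoImplicit false
set_option linter.unusedSectionVars false
set_option linter.unusedSimpArgs false
set_option backward.isDefEq.respectTransparency false
set_option backward.defeqAttrib.useBackward true

open CategoryTheory Limits MonoidalCategory Pretriangulated Triangulated

namespace Pool.Agent.T6.H13.GP

open Pool.Agent.Y116.MT Pool.Agent.V1178.MT Pool.Agent.T6.H13.MT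

universe v u w v' u' w'

section

variable {C : Type u} [Category.{v} C] [Preadditive C] [HasZeroObject C] [HasShift C ℤ]
  [∀ n : ℤ, (shiftFunctor C n).Additive] [Pretriangulated C] {G : ObjectProperty C}

/-- The pushout of a triangle. -/
lemma exists_pushout {X Y Z W : C} {f : X ⟶ Y} {g : Y ⟶ Z} {h : Z ⟶ X⟦(1 : ℤ)⟧}
    (hT : Triangle.mk f g h ∈ distTriang C) (y : X ⟶ W) :
    ∃ (M : C) (j : W ⟶ M) (m : Y ⟶ M) (q : M ⟶ Z),
      Triangle.mk j q (h ≫ y⟦(1 : ℤ)⟧') ∈ distTriang C ∧ f ≫ m = y ≫ j := by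
  obtain ⟨M, j, q, hM⟩ := distinguished_cocone_triangle₂ (h ≫ y⟦(1 : ℤ)⟧')
  obtain ⟨m, hm, -⟩ := complete_distinguished_triangle_morphism₂ _ _ hT hM y (𝟙 Z) (by
    change h ≫ y⟦(1 : ℤ)⟧' = 𝟙 Z ≫ h ≫ y⟦(1 : ℤ)⟧'
    rw [Category.id_comp])
  exact ⟨M, j, m, q, hM, hm⟩

lemma pushout_zero {X Z W M : C} {h : Z ⟶ X⟦(1 : ℤ)⟧}
    {y : X ⟶ W} {j : W ⟶ M} {q : M ⟶ Z} (hM : Triangle.mk j q (h ≫ y⟦(1 : ℤ)⟧') ∈ distTriang C)
    (hX : Ul G X) (hZ : Yg G 0 Z) (hy : y ≫ j = 0) : y = 0 := by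
  have h1 : y⟦(1 : ℤ)⟧' ≫ j⟦(1 : ℤ)⟧' = 0 := by rw [← Functor.map_comp, hy, Functor.map_zero]
  obtain ⟨l, hl⟩ := ce1 hM _ h1
  apply (shiftFunctor C (1 : ℤ)).map_injective
  rw [hl, hX.hom_shift_zero hZ (by norm_num) l, zero_comp, Functor.map_zero]

variable (G) in
/-- The class of images of morphisms between objects of `G`. -/
def Nn : ObjectProperty C := fun N =>
  ∃ (P X : C) (p : P ⟶ N) (i : N ⟶ X), G P ∧ G X ∧ Ul G N ∧ Yg G 0 N ∧ Ep G p ∧ Mo G i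

/-- No negative extensions. -/
lemma Nn.hom_zero {N N' A B : C} (h : Nn G N) (h' : Nn G N') {m n : ℤ}
    (eA : A ≅ N⟦m⟧) (eB : B ≅ N'⟦n⟧) (hmn : n < m) (f : A ⟶ B) : f = 0 := by
  obtain ⟨-, -, -, -, -, -, hU, -⟩ := h
  obtain ⟨-, -, -, -, -, -, -, hY, -⟩ := h'
  rw [← cancel_epi eA.inv, comp_zero]
  exact hU.hom_shift_zero ((hY.shift n (-n) (by ring)).iso eB) (by omega) _

end

section

variable {C : Type u} [Category.{v} C] [Preadditive C] [HasZeroObject C] [HasShift C ℤ]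
  [∀ n : ℤ, (shiftFunctor C n).Additive] [Pretriangulated C] [IsTriangulated C]
  [MonoidalCategory C]
  [SymmetricCategory C] [TensorTriangulated C] [MonoidalPreadditive C] [RightRigidCategory C]
  {G : ObjectProperty C}
  {Λ : Type*} {E : Λ → Type w} [∀ l, Field (E l)] {R : ∀ l, Realisation C (E l)}
  {l₀ : Λ} (hyp : Hyp (R l₀) G) (hdeg : ∀ X, G X → ∀ l, (R l).Deg X 0)

include hyp hdeg

omit hdeg in
lemma Nn.of {X : C} (hX : G X) : Nn G X :=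
  ⟨X, X, 𝟙 _, 𝟙 _, hX, hX, hyp.ul hX, hyp.yg hX, Ep.of_iso (Iso.refl X), Mo.of_iso (Iso.refl X)⟩

/-- The image of a morphism between objects of `G`. -/
theorem exists_im [IsIdempotentComplete C] {P X : C} (hP : G P) (hX : G X) (g : P ⟶ X) :
    ∃ (X₁ P₁ I : C) (c : X ⟶ X₁) (p₁ : P₁ ⟶ I) (i₁ : I ⟶ X) (π : P ⟶ I) (B : C)
      (s : 𝟙_ C ⟶ B), G X₁ ∧ IsKer R G p₁ i₁ c ∧ π ≫ i₁ = g ∧ Ep G π ∧ G B ∧ s ≠ 0 ∧
      ∀ (M : C) (m : X ⟶ M), g ≫ m = 0 → ∃ θ : X₁ ⟶ B ⊗ M, m ≫ sl s M = c ≫ θ := by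
  obtain ⟨X₁, c, B, s, hX₁, hB, hs, hgc, hc⟩ := hyp.toolC hP hX g
  obtain ⟨P₁, I, p₁, i₁, hP₁, hk⟩ := exists_kernel hyp hdeg hX hX₁ c
  obtain ⟨π, hπ⟩ := hk.lift P (hyp.ul hP) g hgc
  refine ⟨X₁, P₁, I, c, p₁, i₁, π, B, s, hX₁, hk, hπ, ?_, hB, hs, hc⟩
  intro W hW f hf
  obtain ⟨Q, q, δ, hQ⟩ := distinguished_cocone_triangle i₁
  have hQ0 : Yg G 0 Q := Mo.cofib hQ (fun X hX => hyp.ul hX) hk.mono hk.yg (hyp.yg hX)
  obtain ⟨M, j, m, q', hM, hm⟩ := exists_pushout hQ f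
  have hM0 : Yg G 0 M := Yg.ext hM hW hQ0
  obtain ⟨θ, hθ⟩ := hc M m (by rw [← hπ, Category.assoc, hm, ← Category.assoc, hf, zero_comp])
  refine pushout_zero hM hk.ul hQ0 ?_
  apply hyp.sl_inj hB hs hk.ul hM0
  rw [← hm, Category.assoc, hθ, ← Category.assoc, hk.ia, zero_comp]

/-- The images are kernels. -/
theorem im_ker [IsIdempotentComplete C] {P X N : C} {p : P ⟶ N} {i : N ⟶ X} (hP : G P)
    (hX : G X) (hN : Ul G N) (hN' : Yg G 0 N) (hp : Ep G p) (hi : Mo G i) :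
    ∃ (X₁ : C) (c : X ⟶ X₁), G X₁ ∧ i ≫ c = 0 ∧
      (∀ U, Ul G U → ∀ n : U ⟶ X, n ≫ c = 0 → ∃ n' : U ⟶ N, n' ≫ i = n) ∧
      ∀ l, (R l).Deg N 0 := by
  obtain ⟨X₁, P₁, I, c, p₁, i₁, π, B, s, hX₁, hk, hπ, hπ', -, -, -⟩ :=
    exists_im hyp hdeg hP hX (p ≫ i)
  have hic : i ≫ c = 0 := by
    apply hp _ (hyp.yg hX₁)
    rw [← Category.assoc, ← hπ, Category.assoc, hk.ia, comp_zero]
  obtain ⟨ι, hι⟩ := hk.lift N hN i hic
  have h1 : p ≫ ι = π := Mo.eq hk.mono (hyp.ul hP) (by rw [Category.assoc, hι, hπ])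
  have hι1 : Mo G ι := Mo.of_comp (g := i₁) (by rw [hι]; exact hi)
  have hι2 : Ep G ι := Ep.of_comp (f := p) (by rw [h1]; exact hπ')
  have := hι1.isIso (fun X hX => hyp.ul hX) hι2 hN hN' hk.yg
  refine ⟨X₁, c, hX₁, hic, fun U hU n hn => ?_, fun l => ?_⟩
  · obtain ⟨n', hn'⟩ := hk.lift U hU n hn
    exact ⟨n' ≫ inv ι, by rw [Category.assoc, ← hι, IsIso.inv_hom_id_assoc, hn']⟩
  · have h2 : (R l).Deg I 0 := by
      intro n hn
      rcases lt_or_gt_of_ne hn with h1 | h1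
      · exact hk.ge l n h1
      · exact hk.le l n h1
    exact h2.iso (asIso ι).symm

lemma Nn.deg [IsIdempotentComplete C] {N : C} (h : Nn G N) (l : Λ) : (R l).Deg N 0 := by
  obtain ⟨P, X, p, i, hP, hX, h1, h2, h3, h4⟩ := h
  obtain ⟨-, -, -, -, -, h5⟩ := im_ker hyp hdeg hP hX h1 h2 h3 h4
  exact h5 l

omit hdeg in
lemma Nn.faithful {N N' : C} (h : Nn G N) (h' : Nn G N') (f : N ⟶ N')
    (hf : (R l₀).H.map f = 0) : f = 0 := by
  obtain ⟨P, X, p, i, hP, hX, h1, h2, h3, h4⟩ := h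
  obtain ⟨P', X', p', i', hP', hX', h1', h2', h3', h4'⟩ := h'
  apply h3 _ h2'
  apply h4' _ (hyp.ul hP)
  apply hyp.faithful hP hX'
  rw [Functor.map_comp, Functor.map_comp, hf, comp_zero, zero_comp]

/-- Each morphism between images has a kernel, an image and a cokernel. -/
theorem exists_adm [IsIdempotentComplete C] {N N' : C} (hN : Nn G N) (hN' : Nn G N')
    (f : N ⟶ N') :
    ∃ (K I Q : C) (κ : K ⟶ N) (ν : N ⟶ I) (d : I ⟶ K⟦(1 : ℤ)⟧) (μ : I ⟶ N') (γ : N' ⟶ Q)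
      (d' : Q ⟶ I⟦(1 : ℤ)⟧), Nn G K ∧ Nn G Q ∧
      Triangle.mk κ ν d ∈ distTriang C ∧ Triangle.mk μ γ d' ∈ distTriang C ∧ ν ≫ μ = f := by
  have hGU : ∀ X, G X → Ul G X := fun X hX => hyp.ul hX
  obtain ⟨P, X, p, i, hP, hX, hU, hY, hp, hi⟩ := hN
  obtain ⟨P', X', p', i', hP', hX', hU', hY', hp', hi'⟩ := hN'
  obtain ⟨X₁', c', hX₁', hic', hlift', -⟩ := im_ker hyp hdeg hP' hX' hU' hY' hp' hi'
  obtain ⟨X₁, P₁, I, c, p₁, i₁, π, B, s, hX₁, hk, hπ, hπ', hB, hs, hθ⟩ :=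
    exists_im hyp hdeg hP hX' (p ≫ f ≫ i')
  have hgc : (p ≫ f ≫ i') ≫ c = 0 := by rw [← hπ, Category.assoc, hk.ia, comp_zero]
  obtain ⟨ν, hν⟩ := hk.lift N hU (f ≫ i') (hp _ (hyp.yg hX₁) _ (by
    rw [← hgc]; simp only [Category.assoc]))
  obtain ⟨μ, hμ⟩ := hlift' I hk.ul i₁ (hπ' _ (hyp.yg hX₁') _ (by
    rw [← Category.assoc, hπ]
    simp only [Category.assoc]
    rw [hic', comp_zero, comp_zero]))
  have hνμ : ν ≫ μ = f := Mo.eq hi' hU (by rw [Category.assoc, hμ, hν])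
  have hpν : p ≫ ν = π := Mo.eq hk.mono (hyp.ul hP) (by rw [Category.assoc, hν, hπ])
  have hν' : Ep G ν := Ep.of_comp (f := p) (by rw [hpν]; exact hπ')
  have hμ' : Mo G μ := Mo.of_comp (g := i') (by rw [hμ]; exact hk.mono)
  -- the kernel
  obtain ⟨K, κ, d, hK⟩ := distinguished_cocone_triangle₁ ν
  have hKU : Ul G K := hν'.fib hK hU
  have hKY : Yg G 0 K := Yg.fib hK hY (hk.yg.mono (by norm_num))
  have hκ : Mo G κ := Mo.of_tri hK hk.yg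
  have hK' : Nn G K := by
    obtain ⟨Pg, Ng, pg, ig, hPg, hkg⟩ := exists_kernel hyp hdeg hP hX' (p ≫ f ≫ i')
    obtain ⟨e, he⟩ := ce2 hK (ig ≫ p) (by
      apply hk.mono _ hkg.ul
      simp only [Category.assoc]
      rw [hν, hkg.ia])
    have he' : Ep G e := by
      intro W hW y hy
      obtain ⟨M, j, m, q', hM, hm⟩ := exists_pushout hK y
      have hM0 : Yg G 0 M := Yg.ext hM hW hk.yg
      refine pushout_zero hM hKU hk.yg ?_
      have h1 : ig ≫ p ≫ m = 0 := by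
        rw [← Category.assoc, he, Category.assoc, hm, ← Category.assoc, hy, zero_comp]
      obtain ⟨F, φ, d', hF⟩ := distinguished_cocone_triangle₁ π
      obtain ⟨φ', hφ'⟩ := hkg.lift F (hπ'.fib hF (hyp.ul hP)) φ (by
        rw [← hπ, ← Category.assoc, comp12 hF, zero_comp])
      obtain ⟨z, hz⟩ := ye2 hF (p ≫ m) (by rw [← hφ', Category.assoc, h1, comp_zero])
      have h2 : m = ν ≫ z := Ep.eq hp hM0 (by rw [hz, ← hpν, Category.assoc])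
      rw [← hm, h2, ← Category.assoc, comp12 hK, zero_comp]
    exact ⟨Pg, X, pg ≫ e, κ ≫ i, hPg, hX, hKU, hKY, Ep.comp hkg.epi he', Mo.comp hκ hi⟩
  -- the cokernel
  obtain ⟨Q, γ, d', hQ⟩ := distinguished_cocone_triangle μ
  have hQU : Ul G Q := Ul.cofib hQ hU' (hk.ul.shift (by norm_num))
  have hQY : Yg G 0 Q := hμ'.cofib hQ hGU hk.yg hY'
  have hγ : Ep G γ := Ep.of_tri hQ hk.ul
  have hQ' : Nn G Q := by
    obtain ⟨iQ, hiQ⟩ := ye2 hQ (i' ≫ c) (by rw [← Category.assoc, hμ, hk.ia])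
    refine ⟨P', X₁, p' ≫ γ, iQ, hP', hX₁, hQU, hQY, Ep.comp hp' hγ, ?_⟩
    intro U hUU n hn
    obtain ⟨M, m, δ, hM⟩ := distinguished_cocone_triangle i₁
    have hM0 : Yg G 0 M := Mo.cofib hM hGU hk.mono hk.yg (hyp.yg hX')
    obtain ⟨θ, hθ'⟩ := hθ M m (by rw [← hπ, Category.assoc, comp12 hM, comp_zero])
    obtain ⟨w, hw1, hw2⟩ := complete_distinguished_triangle_morphism _ _ hQ hM (𝟙 I) i' (by
      change μ ≫ i' = 𝟙 I ≫ i₁
      rw [hμ, Category.id_comp])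
    dsimp at hw1 hw2
    have h1 : w ≫ sl s M = iQ ≫ θ := by
      apply Ep.eq hγ (hyp.yg_tensor hB hM0)
      rw [← Category.assoc, hw1, Category.assoc, hθ', ← Category.assoc, hiQ, Category.assoc]
    have h2 : n ≫ w = 0 := by
      apply hyp.sl_inj hB hs hUU hM0
      rw [Category.assoc, h1, ← Category.assoc, hn, zero_comp]
    have h3 : n ≫ d' = 0 := by
      have h4 : d' = w ≫ δ := by
        rw [← hw2, CategoryTheory.Functor.map_id, Category.comp_id]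
      rw [h4, ← Category.assoc, h2, zero_comp]
    obtain ⟨n', rfl⟩ := ce3 hQ n h3
    obtain ⟨n'', hn''⟩ := ce2 hM (n' ≫ i') (by rw [Category.assoc, ← hw1, ← Category.assoc, h2])
    have h5 : n' = n'' ≫ μ := Mo.eq hi' hUU (by rw [Category.assoc, hμ, hn''])
    rw [h5, Category.assoc, comp12 hQ, comp_zero]
  exact ⟨K, I, Q, κ, ν, d, μ, γ, d', hK', hQ', hK, hQ, hνμ⟩

end

end Pool.Agent.T6.H13.GP
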