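import Pool.Agent.T6.H13.GP.Ins

/-!
# Vanishing classes attached to a class of objects in degree zero
-/

set_option autoImplicit false
set_option linter.unusedSectionVars false
set_option linter.unusedSimpArgs false
set_option backward.isDefEq.respectTransparency false
set_option backward.defeqAttrib.useBackward true

open CategoryTheory Limits MonoidalCategory Pretriangulated Triangulated

namespace Pool.Agent.T6.H13.GP

open Pool.Agent.Y116.MT Pool.Agent.V1178.MT Pool.Agent.T6.H13.MT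

universe v u w v' u' w'

section

variable {C : Type u} [Category.{v} C] [Preadditive C] [HasZeroObject C] [HasShift C ℤ]
  [∀ n : ℤ, (shiftFunctor C n).Additive] [Pretriangulated C]

/-- `A` is a shift by `m` of an object of `G`. -/
def InSh (G : ObjectProperty C) (m : ℤ) (A : C) : Prop := ∃ X, G X ∧ Nonempty (A ≅ X⟦m⟧)

/-- The objects in degrees `≥ n` with respect to `G`. -/
def Yg (G : ObjectProperty C) (n : ℤ) (Y : C) : Prop :=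
  ∀ X, G X → ∀ m : ℤ, -n < m → ∀ f : X⟦m⟧ ⟶ Y, f = 0

/-- The objects in degrees `≤ 0` with respect to `G`. -/
def Ul (G : ObjectProperty C) (U : C) : Prop := ∀ Y, Yg G 1 Y → ∀ f : U ⟶ Y, f = 0

lemma shift_hom_zero {X Y : C} (m : ℤ) (h0 : ∀ g : X ⟶ Y⟦-m⟧, g = 0) (f : X⟦m⟧ ⟶ Y) : f = 0 := by
  have h1 : (shiftShiftNeg X m).inv ≫ f⟦-m⟧' = 0 := h0 _
  have h2 : f⟦-m⟧' = 0 := by
    rw [← cancel_epi (shiftShiftNeg X m).inv, h1, comp_zero]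
  exact (shiftFunctor C (-m)).map_injective (by rw [h2, Functor.map_zero])

variable {G : ObjectProperty C}

lemma InSh.iso {m : ℤ} {A B : C} (h : InSh G m A) (e : B ≅ A) : InSh G m B := by
  obtain ⟨X, hX, ⟨f⟩⟩ := h
  exact ⟨X, hX, ⟨e ≪≫ f⟩⟩

lemma InSh.shift {m : ℤ} {A : C} (h : InSh G m A) (n k : ℤ) (hk : m + n = k) :
    InSh G k (A⟦n⟧) := by
  obtain ⟨X, hX, ⟨f⟩⟩ := h
  exact ⟨X, hX, ⟨(shiftFunctor C n).mapIso f ≪≫ ((shiftFunctorAdd' C m n k hk).app X).symm⟩⟩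

lemma InSh.of {X : C} (h : G X) : InSh G 0 X := ⟨X, h, ⟨((shiftFunctorZero C ℤ).app X).symm⟩⟩

lemma Yg.mono {n n' : ℤ} (h : n' ≤ n) {Y : C} (hY : Yg G n Y) : Yg G n' Y :=
  fun X hX m hm f => hY X hX m (by omega) f

lemma Yg.hom_zero {n m : ℤ} {Y A : C} (hY : Yg G n Y) (hA : InSh G m A) (h : -n < m)
    (f : A ⟶ Y) : f = 0 := by
  obtain ⟨X, hX, ⟨e⟩⟩ := hA
  rw [← cancel_epi e.inv, comp_zero]
  exact hY X hX m h _

lemma Yg.iso {n : ℤ} {Y Y' : C} (hY : Yg G n Y) (e : Y' ≅ Y) : Yg G n Y' := by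
  intro X hX m hm f
  rw [← cancel_mono e.hom, zero_comp]
  exact hY X hX m hm _

lemma Yg.shift {n : ℤ} {Y : C} (hY : Yg G n Y) (a k : ℤ) (hk : k + a = n) : Yg G k (Y⟦a⟧) := by
  intro X hX m hm f
  obtain ⟨g, hg⟩ : ∃ g : X⟦m⟧⟦-a⟧ ⟶ Y, g⟦a⟧' ≫ 𝟙 _ =
      (shiftNegShift (X⟦m⟧) a).hom ≫ f := by
    obtain ⟨g, hg⟩ := (shiftFunctor C a).map_surjective ((shiftNegShift (X⟦m⟧) a).hom ≫ f)
    exact ⟨g, by rw [hg, Category.comp_id]⟩
  have h1 : g = 0 := hY.hom_zero ((show InSh G m (X⟦m⟧) from ⟨X, hX, ⟨Iso.refl _⟩⟩).shift (-a)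
    (m - a) (by ring)) (by omega) g
  rw [h1, Functor.map_zero, zero_comp] at hg
  rw [← cancel_epi (shiftNegShift (X⟦m⟧) a).hom, ← hg, comp_zero]

lemma Yg.fib {n : ℤ} {X Y Z : C} {f : X ⟶ Y} {g : Y ⟶ Z} {h : Z ⟶ X⟦(1 : ℤ)⟧}
    (hT : Triangle.mk f g h ∈ distTriang C) (hY : Yg G n Y) (hZ : Yg G (n - 1) Z) : Yg G n X := by
  intro A hA m hm k
  have h1 : k ≫ f = 0 := hY A hA m hm _
  have h2 : k⟦(1 : ℤ)⟧' ≫ f⟦(1 : ℤ)⟧' = 0 := by rw [← Functor.map_comp, h1, Functor.map_zero]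
  obtain ⟨l, hl⟩ := ce1 hT (k⟦(1 : ℤ)⟧') h2
  have h3 : l = 0 := hZ.hom_zero ((show InSh G m (A⟦m⟧) from ⟨A, hA, ⟨Iso.refl _⟩⟩).shift 1
    (m + 1) rfl) (by omega) l
  apply (shiftFunctor C (1 : ℤ)).map_injective
  rw [hl, h3, zero_comp, Functor.map_zero]

lemma Yg.ext {n : ℤ} {X Y Z : C} {f : X ⟶ Y} {g : Y ⟶ Z} {h : Z ⟶ X⟦(1 : ℤ)⟧}
    (hT : Triangle.mk f g h ∈ distTriang C) (hX : Yg G n X) (hZ : Yg G n Z) : Yg G n Y := by
  intro A hA m hm k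
  obtain ⟨l, hl⟩ := ce2 hT k (hZ A hA m hm _)
  rw [hl, hX A hA m hm l, zero_comp]

lemma Yg.retract {n : ℤ} {X Y : C} (hX : Yg G n X) (i : Y ⟶ X) (r : X ⟶ Y) (hir : i ≫ r = 𝟙 _) :
    Yg G n Y := by
  intro A hA m hm k
  rw [← Category.comp_id k, ← hir, ← Category.assoc, hX A hA m hm (k ≫ i), zero_comp]

lemma Ul.retract {X Y : C} (hX : Ul G X) (i : Y ⟶ X) (r : X ⟶ Y) (hir : i ≫ r = 𝟙 _) :
    Ul G Y := by
  intro A hA k
  rw [← Category.id_comp k, ← hir, Category.assoc, hX A hA (r ≫ k), comp_zero]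

lemma Ul.of_inSh {m : ℤ} (hm : 0 ≤ m) {A : C} (h : InSh G m A) : Ul G A :=
  fun _ hY f => hY.hom_zero h (by omega) f

lemma Ul.cofib {X Y Z : C} {f : X ⟶ Y} {g : Y ⟶ Z} {h : Z ⟶ X⟦(1 : ℤ)⟧}
    (hT : Triangle.mk f g h ∈ distTriang C) (hY : Ul G Y) (hX : Ul G (X⟦(1 : ℤ)⟧)) : Ul G Z := by
  intro A hA k
  obtain ⟨l, hl⟩ := ye3 hT k (hY A hA _)
  rw [hl, hX A hA l, comp_zero]

end

end Pool.Agent.T6.H13.GP
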