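import Pool.Agent.T6.H13.GP.Order

/-!
# The lowest cohomology lifts; the criteria
-/

set_option autoImplicit false
set_option linter.unusedSectionVars false
set_option linter.unusedSimpArgs false
set_option backward.isDefEq.respectTransparency false
set_option backward.defeqAttrib.useBackward true

open CategoryTheory Limits MonoidalCategory Pretriangulated Triangulated
open scoped ZeroObject

namespace Pool.Agent.T6.H13.GP

open Pool.Agent.Y116.MT Pool.Agent.V1178.MT Pool.Agent.T6.H13.MT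

universe v u w v' u' w'

open Functor.LaxMonoidal

section

variable {C : Type u} [Category.{v} C] [Preadditive C] [HasZeroObject C] [HasShift C ℤ]
  [∀ n : ℤ, (shiftFunctor C n).Additive] [Pretriangulated C] [IsTriangulated C]
  [MonoidalCategory C]
  [SymmetricCategory C] [TensorTriangulated C] [MonoidalPreadditive C] [RightRigidCategory C]
  {Λ : Type*} {E : Λ → Type w} [∀ l, Field (E l)] {R : ∀ l, Realisation C (E l)}
  {𝒩 : ObjectProperty C}

variable (R 𝒩) in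
/-- The lowest cohomology of `M` lifts to a shift of an object of `𝒩`. -/
def LL (M : C) : Prop :=
  ∃ (a : ℤ) (A : C) (f : A ⟶ M), InSh 𝒩 (-a) A ∧ ¬ IsZero A ∧ ∀ l : Λ,
    (R l).Deg A a ∧ (∀ i : ℤ, i < a → IsZero ((R l).H.obj (M⟦i⟧))) ∧ Mono ((R l).H.map (f⟦a⟧'))

lemma LL.iso {M M' : C} (h : LL R 𝒩 M) (e : M ≅ M') : LL R 𝒩 M' := by
  obtain ⟨a, A, f, hA, hA', h⟩ := h
  refine ⟨a, A, f ≫ e.hom, hA, hA', fun l => ⟨(h l).1, fun i hi => ?_, ?_⟩⟩
  · exact ((h l).2.1 i hi).of_iso ((R l).H.mapIso ((shiftFunctor C i).mapIso e.symm))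
  · have := (h l).2.2
    rw [Functor.map_comp, Functor.map_comp]
    infer_instance

lemma Fi.ge (hdeg : ∀ X, 𝒩 X → ∀ l, (R l).Deg X 0) {n : ℤ} {M : C} (h : Fi 𝒩 n M) :
    AllGE R (-n) M := by
  induction h with
  | zero h =>
    intro l i hi
    exact (R l).H.map_isZero (isZero_shift h i)
  | cell hA hi hT h' ih =>
    intro l k hk
    exact hz2 (R l).H hT k (hA.deg hdeg l k (by omega)) (ih l k (by omega))

lemma Fi.ll (hdeg : ∀ X, 𝒩 X → ∀ l, (R l).Deg X 0) {n : ℤ} {M : C} (h : Fi 𝒩 n M) :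
    ¬ IsZero M → LL R 𝒩 M := by
  induction h with
  | zero h => exact fun h' => absurd h h'
  | @cell n i A M M' f g h hA hi hT h' ih =>
    intro hM
    by_cases hz : IsZero A
    · have := isIso2_of_isZero1 hT hz
      exact (ih fun h2 => hM (h2.of_iso (asIso g))).iso (asIso g).symm
    · refine ⟨-i, A, f, by rwa [neg_neg], hz, fun l => ⟨hA.deg hdeg l, fun k hk => ?_, ?_⟩⟩
      · exact hz2 (R l).H hT k (hA.deg hdeg l k (by omega)) (h'.ge hdeg l k (by omega))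
      · exact hmono1 (R l).H hT (-i) (h'.ge hdeg l _ (by omega))

/-- The lowest cohomology of the shift of a retract lifts. -/
lemma ll_retract (ha : Adm 𝒩) (hdeg : ∀ X, 𝒩 X → ∀ l, (R l).Deg X 0)
    {M : C} (hM : Re 𝒩 M) (hM0 : ¬ IsZero M) : LL R 𝒩 (M⟦(1 : ℤ)⟧) := by
  obtain ⟨X, n, i, r, hX, hir⟩ := hM
  obtain ⟨W, p, d, hW⟩ := distinguished_cocone_triangle (𝟙 X - r ≫ i)
  obtain ⟨k, hk⟩ := hX.ext ha (hX.shift 1) (rotD hW)
  obtain ⟨r', hr'⟩ := ye2 hW r (by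
    rw [Preadditive.sub_comp, Category.assoc, hir, Category.id_comp, Category.comp_id, sub_self])
  obtain ⟨j, hj⟩ := ce1 hW (i⟦(1 : ℤ)⟧') (by
    rw [← Functor.map_comp, Preadditive.comp_sub, Category.comp_id, ← Category.assoc, hir,
      Category.id_comp, sub_self, Functor.map_zero])
  have hret : (i ≫ p) ≫ r' = 𝟙 M := by rw [Category.assoc, ← hr', hir]
  have hret' : j ≫ d ≫ r⟦(1 : ℤ)⟧' = 𝟙 _ := by
    rw [← Category.assoc, ← hj, ← Functor.map_comp, hir, CategoryTheory.Functor.map_id]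
  have hd : d ≫ (r ≫ i)⟦(1 : ℤ)⟧' = d := by
    have h1 := comp31 hW
    rw [Functor.map_sub, CategoryTheory.Functor.map_id, Preadditive.comp_sub, Category.comp_id,
      sub_eq_zero] at h1
    exact h1.symm
  have hp : (r ≫ i) ≫ p = p := by
    have h1 := comp12 hW
    rw [Preadditive.sub_comp, Category.id_comp, sub_eq_zero] at h1
    exact h1.symm
  have hW0 : ¬ IsZero W := fun h => hM0 (isZero_retr h _ _ hret)
  obtain ⟨a, A, f, hA, hA', h⟩ := hk.ll (R := R) hdeg hW0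
  have hz1 : ∀ l, ∀ m : ℤ, m < a → IsZero ((R l).H.obj ((M⟦(1 : ℤ)⟧)⟦m⟧)) := by
    intro l m hm
    exact isZero_retr ((h l).2.1 m hm) ((R l).H.map (j⟦m⟧'))
      ((R l).H.map ((d ≫ r⟦(1 : ℤ)⟧')⟦m⟧')) (by
        rw [← Functor.map_comp, ← Functor.map_comp, hret', CategoryTheory.Functor.map_id,
          CategoryTheory.Functor.map_id])
  refine ⟨a, A, f ≫ d ≫ r⟦(1 : ℤ)⟧', hA, hA', fun l => ⟨(h l).1, hz1 l, ?_⟩⟩
  have h1 := (h l).2.2
  have h2 : Mono ((R l).H.map ((d ≫ r⟦(1 : ℤ)⟧')⟦a⟧')) := by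
    rw [ModuleCat.mono_iff_injective, injective_iff_map_eq_zero]
    intro x hx
    have h3 : (R l).H.map (d⟦a⟧') x = 0 := by
      have h5 : d⟦a⟧' = (d ≫ r⟦(1 : ℤ)⟧')⟦a⟧' ≫ i⟦(1 : ℤ)⟧'⟦a⟧' := by
        rw [← Functor.map_comp, Category.assoc, ← Functor.map_comp, hd]
      rw [h5, map_comp_apply', hx, map_zero]
    obtain ⟨y, rfl⟩ := hex2 (R l).H (rotD hW) a x h3
    have h6 : IsZero ((R l).H.obj (M⟦a⟧)) := (hz1 l (a - 1) (by omega)).of_iso
      ((R l).H.mapIso ((shiftFunctorAdd' C 1 (a - 1) a (by ring)).app M))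
    have h7 : (R l).H.map (r⟦a⟧') = 0 := h6.eq_of_tgt _ _
    have h8 : (R l).H.map (p⟦a⟧') = 0 := by
      rw [← hp, Category.assoc, Functor.map_comp, Functor.map_comp, h7, zero_comp]
    rw [h8]
    rfl
  rw [Functor.map_comp, Functor.map_comp]
  exact mono_comp _ _

/-- The lowest cohomology of each object lifts. -/
theorem ll_all (ha : Adm 𝒩) (hdeg : ∀ X, 𝒩 X → ∀ l, (R l).Deg X 0)
    {G : ObjectProperty C} (hG : ThickGenerates G) (hGN : ∀ X, G X → 𝒩 X) {M : C}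
    (hM : ¬ IsZero M) : LL R 𝒩 M := by
  have h1 : ¬ IsZero (M⟦(-1 : ℤ)⟧) := fun h => hM
    (((shiftFunctor C (1 : ℤ)).map_isZero h).of_iso (shiftNegShift M (1 : ℤ)).symm)
  exact (ll_retract ha hdeg (Re.all ha hG hGN (M⟦(-1 : ℤ)⟧)) h1).iso (shiftNegShift M (1 : ℤ))

end

section

variable {C : Type u} [Category.{v} C] [Preadditive C] [HasZeroObject C] [HasShift C ℤ]
  [∀ n : ℤ, (shiftFunctor C n).Additive] [Pretriangulated C] [IsTriangulated C]
  [MonoidalCategory C]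
  [SymmetricCategory C] [TensorTriangulated C] [MonoidalPreadditive C] [RightRigidCategory C]
  {Λ : Type*} {E : Λ → Type w} [∀ l, Field (E l)] (R : ∀ l, Realisation C (E l))
  {G : ObjectProperty C} {l₀ : Λ}

/-- Existence. -/
theorem exists_motivic [IsIdempotentComplete C] (hyp : Hyp (R l₀) G)
    (hdeg : ∀ X, G X → ∀ l, (R l).Deg X 0) (hG : ThickGenerates G) :
    ∃ t : TStructure C, IsMotivic t R := by
  have ha : Adm (Nn G) :=
    ⟨fun h h' _ _ eA eB hmn f => h.hom_zero h' eA eB hmn f,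
      fun h h' f => exists_adm hyp hdeg h h' f⟩
  have hl := fun (M : C) (hM : ¬ IsZero M) =>
    ll_all (R := R) ha (fun X hX l => hX.deg hyp hdeg l) hG (fun X hX => Nn.of hyp hX) hM
  have hl' : LowestLifts R := fun M hM => by
    obtain ⟨a, A, f, -, h⟩ := hl M hM
    exact ⟨a, A, f, h⟩
  have hc : Conservative (R l₀) := by
    intro M hM
    by_contra hM0
    obtain ⟨a, A, f, ⟨N, hN, ⟨e⟩⟩, hA', h⟩ := hl M hM0
    have h1 := (h l₀).2.2
    have h2 : IsZero ((R l₀).H.obj (A⟦a⟧)) := by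
      rw [IsZero.iff_id_eq_zero, ← cancel_mono ((R l₀).H.map (f⟦a⟧'))]
      exact (hM a).eq_of_tgt _ _
    have e2 : A⟦a⟧ ≅ N := (shiftFunctor C a).mapIso e ≪≫ shiftNegShift N a
    have h3 : IsZero ((R l₀).H.obj N) := h2.of_iso ((R l₀).H.mapIso e2.symm)
    have h4 : 𝟙 N = 0 := hN.faithful hyp hN _ (h3.eq_of_src _ _)
    have h5 : IsZero N := (IsZero.iff_id_eq_zero _).2 h4
    exact hA' ((isZero_shift h5 (-a)).of_iso e)
  exact ⟨liftT hc hl', liftT_motivic hc hl'⟩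

variable {R}

/-- The cofiber of a section is in degree zero. -/
lemma deg_fib {R : Realisation C (E l₀)} {B K : C} (hB : R.Deg B 0) {s : 𝟙_ C ⟶ B}
    (hs : R.H.map s ≠ 0) {k : K ⟶ 𝟙_ C} {d : B ⟶ K⟦(1 : ℤ)⟧}
    (hT : Triangle.mk k s d ∈ distTriang C) : R.Deg (K⟦(1 : ℤ)⟧) 0 := by
  have hm : Mono (R.H.map (s⟦(0 : ℤ)⟧')) := mono_shift_zero _ _ (mono_H_s hs)
  intro i hi
  by_cases h1 : i = 0 - 1
  · subst h1
    exact hz3_of_mono R.H (rotD hT) 0 (hB _ (by omega)) hm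
  · exact hz3 R.H (rotD hT) i (hB i hi) (deg_unit (i + 1) (by omega))

/-- The fiber of a section is nilpotent if the realisation is conservative. -/
lemma nil_of_cons [CharZero (E l₀)] (hc : Conservative (R l₀)) {B K : C} (hB : (R l₀).Deg B 0)
    {s : 𝟙_ C ⟶ B} (hs : (R l₀).H.map s ≠ 0) {k : K ⟶ 𝟙_ C} {d : B ⟶ K⟦(1 : ℤ)⟧}
    (hT : Triangle.mk k s d ∈ distTriang C) : ∃ n : ℕ, kp k (𝟙_ C) n = 0 := by
  obtain ⟨n, hn⟩ := kp_zero hc (deg_fib hB hs hT) k
  exact ⟨n, hn n le_rfl _⟩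

/-- A motivic t-structure is conservative, has no negative extensions and is faithful. -/
theorem of_motivic (hid : ∀ e : 𝟙_ C ⟶ 𝟙_ C, e ≫ e = e → e = 0 ∨ e = 𝟙 _)
    (hdeg : (X : C) → G X → (R l₀).Deg X 0) {t : TStructure C} (h : IsMotivic t R) :
    Conservative (R l₀) ∧ (∀ X, G X → ∀ n : ℕ, 0 < n → ∀ f : 𝟙_ C ⟶ X⟦-(n : ℤ)⟧, f = 0) ∧
      (∀ X, G X → ∀ f : 𝟙_ C ⟶ X, (R l₀).H.map f = 0 → f = 0) := by
  have ht : TensorCompat t := ⟨h.tensor_le, h.tensor_ge⟩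
  have hu : Hrt t (𝟙_ C) := unit_hrt ht h.nondeg_le h.nondeg_ge
  have he : TExact t (R l₀) := ⟨h.exact_le l₀, h.exact_ge l₀⟩
  have hc : Conservative (R l₀) :=
    fun X hX => conservative ht he hu hid h.nondeg_le h.nondeg_ge hX
  have hH : ∀ X, G X → Hrt t X := fun X hX =>
    ⟨isLE_of hc he fun i hi => hdeg X hX i (by omega),
      isGE_of hc he fun i hi => hdeg X hX i (by omega)⟩
  refine ⟨hc, fun X hX n hn f => ?_, fun X hX f hf => ?_⟩
  · have h1 := hu.1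
    have h2 := (hH X hX).2
    have h3 : t.IsGE (X⟦-(n : ℤ)⟧) n := t.isGE_shift X 0 (-n) n
    exact t.zero_of_isLE_of_isGE f 0 n (by omega) h1 h3
  · exact faithful_heart ht he hu hid hu (hH X hX) f hf

variable (R)

/-- The first criterion. -/
theorem exists_motivic_iff [IsIdempotentComplete C]
    (hid : ∀ e : 𝟙_ C ⟶ 𝟙_ C, e ≫ e = e → e = 0 ∨ e = 𝟙 _) (l₀ : Λ) [CharZero (E l₀)]
    (hG : ThickGenerates G) (hunit : G (𝟙_ C)) (htensor : ∀ X Y, G X → G Y → G (X ⊗ Y))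
    (hdual : ∀ X, G X → G Xᘁ) (hdeg : ∀ X, G X → ∀ l, (R l).Deg X 0) :
    (∃ t : TStructure C, IsMotivic t R) ↔
      Conservative (R l₀) ∧
      (∀ X, G X → ∀ n : ℕ, 0 < n → ∀ f : 𝟙_ C ⟶ X⟦-(n : ℤ)⟧, f = 0) ∧
      (∀ X, G X → ∀ f : 𝟙_ C ⟶ X, (R l₀).H.map f = 0 → f = 0) := by
  constructor
  · rintro ⟨t, h⟩
    exact of_motivic hid (fun X hX => hdeg X hX l₀) h
  · rintro ⟨h1, h2, h3⟩
    exact exists_motivic R ⟨hunit, htensor, hdual, fun X hX => hdeg X hX l₀,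
      fun hB _ hs _ _ hT => nil_of_cons h1 (hdeg _ hB l₀) (fun h => hs (h3 _ hB _ h)) hT,
      h2, h3⟩ hdeg hG

variable {R}

/-- If `k` is surjective on cohomology, it is not nilpotent. -/
lemma kp_ne_zero {R : Realisation C (E l₀)} {K : C} {k : K ⟶ 𝟙_ C} (hk : Epi (R.H.map k))
    (n : ℕ) : kp k (𝟙_ C) n ≠ 0 := by
  have h1 : ∀ V : C, Epi (R.H.map (ze k V)) := by
    intro V
    have h2 := (deg_unit (R := R)).isIso_mu V
    have h3 : Epi (R.H.map k ▷ R.H.obj V) := by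
      rw [ModuleCat.epi_iff_surjective] at hk ⊢
      exact LinearMap.rTensor_surjective _ hk
    have h4 : Epi (R.H.map (k ▷ V)) := by
      have h5 : Epi (μ R.H K V ≫ R.H.map (k ▷ V)) := by
        rw [← μ_natural_left]
        exact epi_comp _ _
      exact epi_of_epi (μ R.H K V) _
    have h6 : ze k V = (β_ V K).hom ≫ k ▷ V ≫ (β_ (𝟙_ C) V).hom ≫ (ρ_ V).hom := by
      rw [← Category.assoc, ← BraidedCategory.braiding_naturality_right, ze, Category.assoc,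
        ← Category.assoc (β_ V (𝟙_ C)).hom, SymmetricCategory.symmetry, Category.id_comp]
    rw [h6, Functor.map_comp, Functor.map_comp]
    exact epi_comp _ _
  have h2 : Epi (R.H.map (kp k (𝟙_ C) n)) := by
    induction n with
    | zero =>
      rw [kp, CategoryTheory.Functor.map_id]
      infer_instance
    | succ n ih =>
      have := h1 (pw (𝟙_ C) K n)
      rw [kp, Functor.map_comp]
      exact epi_comp _ _
  intro h3
  apply not_isZero_H_unit R
  rw [IsZero.iff_id_eq_zero, ← cancel_epi (R.H.map (kp k (𝟙_ C) n)), h3, Functor.map_zero,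
    zero_comp, zero_comp]

/-- If the realisation of `f` vanishes, that of the fiber is surjective. -/
lemma epi_of_zero {R : Realisation C (E l₀)} {K X Y : C} {k : K ⟶ X} {f : X ⟶ Y}
    {d : Y ⟶ K⟦(1 : ℤ)⟧} (hT : Triangle.mk k f d ∈ distTriang C) (hf : R.H.map f = 0) :
    Epi (R.H.map k) := by
  apply epi_of_shift_zero
  rw [ModuleCat.epi_iff_surjective]
  intro x
  apply hex2 R.H hT 0 x
  rw [shift_zero_map, hf, zero_comp, comp_zero]
  rfl

/-- Each morphism `A ⟶ 𝟙` which is annihilated by a nonzero morphism `𝟙 ⟶ X⟦-n⟧` with `X` in `G` and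
`n ≥ 0` is tensor nilpotent. -/
def Star (G : ObjectProperty C) : Prop :=
  ∀ X, G X → ∀ (n : ℕ) (s : 𝟙_ C ⟶ X⟦-(n : ℤ)⟧), s ≠ 0 →
    ∀ (A : C) (a : A ⟶ 𝟙_ C), a ≫ s = 0 → ∃ m : ℕ, kp a (𝟙_ C) m = 0

lemma Star.zero (h : Star G) {X : C} (hX : G X) (n : ℕ)
    (s : 𝟙_ C ⟶ X⟦-(n : ℤ)⟧) (hs : (R l₀).H.map s = 0) : s = 0 := by
  by_contra h0
  obtain ⟨K, k, d, hT⟩ := distinguished_cocone_triangle₁ s
  obtain ⟨m, hm⟩ := h X hX n s h0 K k (comp12 hT)
  exact kp_ne_zero (epi_of_zero hT hs) m hm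

/-- The nilpotence condition implies the other conditions. -/
lemma Star.hyp (h : Star G) (hunit : G (𝟙_ C)) (htensor : ∀ X Y, G X → G Y → G (X ⊗ Y))
    (hdual : ∀ X, G X → G Xᘁ) (hdeg : (X : C) → G X → (R l₀).Deg X 0) : Hyp (R l₀) G := by
  refine ⟨hunit, htensor, hdual, hdeg, ?_, ?_, ?_⟩
  · intro B K hB s hs k d hT
    let e : B ≅ B⟦-((0 : ℕ) : ℤ)⟧ := ((shiftFunctorZero' C (-((0 : ℕ) : ℤ)) (by simp)).app B).symm
    refine h B hB 0 (s ≫ e.hom) (fun h0 => hs ?_) K k ?_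
    · rw [← cancel_mono e.hom, h0, zero_comp]
    · rw [← Category.assoc, comp12 hT, zero_comp]
  · intro X hX n hn f
    apply h.zero (R := R) (l₀ := l₀) hX n f
    have h1 : (R l₀).Deg (X⟦-(n : ℤ)⟧) n := (hdeg X hX).shift _ _ (by ring)
    have h2 : IsZero ((R l₀).H.obj (X⟦-(n : ℤ)⟧)) := (h1 0 (by omega)).of_iso
      ((R l₀).H.mapIso ((shiftFunctorZero C ℤ).app _).symm)
    exact h2.eq_of_tgt _ _
  · intro X hX f hf
    let e : X ≅ X⟦-((0 : ℕ) : ℤ)⟧ := ((shiftFunctorZero' C (-((0 : ℕ) : ℤ)) (by simp)).app X).symm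
    rw [← cancel_mono e.hom, zero_comp]
    apply h.zero (R := R) (l₀ := l₀) hX 0
    rw [Functor.map_comp, hf, zero_comp]

variable (R)

/-- The second criterion. -/
theorem exists_motivic_iff_star [IsIdempotentComplete C]
    (hid : ∀ e : 𝟙_ C ⟶ 𝟙_ C, e ≫ e = e → e = 0 ∨ e = 𝟙 _) (l₀ : Λ) [CharZero (E l₀)]
    (hG : ThickGenerates G) (hunit : G (𝟙_ C)) (htensor : ∀ X Y, G X → G Y → G (X ⊗ Y))
    (hdual : ∀ X, G X → G Xᘁ) (hdeg : ∀ X, G X → ∀ l, (R l).Deg X 0) :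
    (∃ t : TStructure C, IsMotivic t R) ↔ Star G := by
  constructor
  · rintro ⟨t, h⟩
    obtain ⟨h1, h2, h3⟩ := of_motivic hid (fun X hX => hdeg X hX l₀) h
    intro X hX n s hs A a ha
    rcases Nat.eq_zero_or_pos n with rfl | hn
    · let e : X ≅ X⟦-((0 : ℕ) : ℤ)⟧ := ((shiftFunctorZero' C (-((0 : ℕ) : ℤ)) (by simp)).app X).symm
      have hs' : (R l₀).H.map s ≠ 0 := by
        intro h4
        apply hs
        rw [← cancel_mono e.inv, zero_comp]
        apply h3 X hX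
        rw [Functor.map_comp, h4, zero_comp]
      obtain ⟨K, k, d, hT⟩ := distinguished_cocone_triangle₁ s
      obtain ⟨m, hm⟩ := nil_of_cons h1 ((hdeg X hX l₀).iso e) hs' hT
      obtain ⟨a', rfl⟩ := ce2 hT a ha
      exact ⟨m, by rw [kp_comp, hm, comp_zero]⟩
    · exact absurd (h2 X hX n hn s) hs
  · intro h
    exact exists_motivic R (h.hyp hunit htensor hdual fun X hX => hdeg X hX l₀) hdeg hG

end

end Pool.Agent.T6.H13.GP
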