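import Pool.Agent.T6.H13.GP.Ker

/-!
# Insertions are injective on maps to objects in degrees `≥ 0`; monomorphisms and epimorphisms
-/

set_option autoImplicit false
set_option linter.unusedSectionVars false
set_option linter.unusedSimpArgs false
set_option backward.isDefEq.respectTransparency false
set_option backward.defeqAttrib.useBackward true

open CategoryTheory Limits MonoidalCategory Pretriangulated Triangulated

namespace Pool.Agent.T6.H13.GP

open Pool.Agent.Y116.MT Pool.Agent.V1178.MT Pool.Agent.T6.H13.MT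

universe v u w v' u' w'

section

variable {C : Type u} [Category.{v} C] [Preadditive C] [HasZeroObject C] [HasShift C ℤ]
  [∀ n : ℤ, (shiftFunctor C n).Additive] [Pretriangulated C] {G : ObjectProperty C}

lemma Ul.hom_shift_zero {U Y : C} (hU : Ul G U) {n : ℤ} (hY : Yg G n Y) {m : ℤ} (hm : 1 - m ≤ n)
    (f : U⟦m⟧ ⟶ Y) : f = 0 := by
  apply shift_hom_zero
  intro g
  exact hU _ ((hY.shift (-m) (n + m) (by ring)).mono (by omega)) g

lemma Ul.shift {U : C} (hU : Ul G U) {m : ℤ} (hm : 0 ≤ m) : Ul G (U⟦m⟧) :=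
  fun _ hY f => hU.hom_shift_zero hY (by omega) f

lemma Ul.ext {X Y Z : C} {f : X ⟶ Y} {g : Y ⟶ Z} {h : Z ⟶ X⟦(1 : ℤ)⟧}
    (hT : Triangle.mk f g h ∈ distTriang C) (hX : Ul G X) (hZ : Ul G Z) : Ul G Y := by
  intro A hA k
  obtain ⟨l, hl⟩ := ye2 hT k (hX A hA _)
  rw [hl, hZ A hA l, comp_zero]

variable (G) in
/-- `f` is a monomorphism with respect to the objects in degrees `≤ 0`. -/
def Mo {X Y : C} (f : X ⟶ Y) : Prop := ∀ U, Ul G U → ∀ n : U ⟶ X, n ≫ f = 0 → n = 0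

variable (G) in
/-- `f` is an epimorphism with respect to the objects in degrees `≥ 0`. -/
def Ep {X Y : C} (f : X ⟶ Y) : Prop := ∀ W, Yg G 0 W → ∀ n : Y ⟶ W, f ≫ n = 0 → n = 0

lemma Mo.eq {X Y : C} {f : X ⟶ Y} (h : Mo G f) {U : C} (hU : Ul G U) {a b : U ⟶ X}
    (hab : a ≫ f = b ≫ f) : a = b := by
  rw [← sub_eq_zero]
  apply h U hU
  rw [Preadditive.sub_comp, hab, sub_self]

lemma Ep.eq {X Y : C} {f : X ⟶ Y} (h : Ep G f) {W : C} (hW : Yg G 0 W) {a b : Y ⟶ W}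
    (hab : f ≫ a = f ≫ b) : a = b := by
  rw [← sub_eq_zero]
  apply h W hW
  rw [Preadditive.comp_sub, hab, sub_self]

lemma Mo.comp {X Y Z : C} {f : X ⟶ Y} {g : Y ⟶ Z} (hf : Mo G f) (hg : Mo G g) :
    Mo G (f ≫ g) := by
  intro U hU n hn
  exact hf U hU n (hg U hU _ (by rw [Category.assoc, hn]))

lemma Ep.comp {X Y Z : C} {f : X ⟶ Y} {g : Y ⟶ Z} (hf : Ep G f) (hg : Ep G g) :
    Ep G (f ≫ g) := by
  intro W hW n hn
  exact hg W hW n (hf W hW _ (by rw [← Category.assoc, hn]))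

lemma Mo.of_comp {X Y Z : C} {f : X ⟶ Y} {g : Y ⟶ Z} (h : Mo G (f ≫ g)) : Mo G f :=
  fun U hU n hn => h U hU n (by rw [← Category.assoc, hn, zero_comp])

lemma Ep.of_comp {X Y Z : C} {f : X ⟶ Y} {g : Y ⟶ Z} (h : Ep G (f ≫ g)) : Ep G g :=
  fun W hW n hn => h W hW n (by rw [Category.assoc, hn, comp_zero])

lemma Mo.of_iso {X Y : C} (e : X ≅ Y) : Mo G e.hom := by
  intro U _ n hn
  rw [← cancel_mono e.hom, hn, zero_comp]

lemma Ep.of_iso {X Y : C} (e : X ≅ Y) : Ep G e.hom := by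
  intro U _ n hn
  rw [← cancel_epi e.hom, hn, comp_zero]

section

variable {X Y Z : C} {f : X ⟶ Y} {g : Y ⟶ Z} {h : Z ⟶ X⟦(1 : ℤ)⟧}
  (hT : Triangle.mk f g h ∈ distTriang C)

include hT

/-- The cofiber of a monomorphism. -/
lemma Mo.cofib (hGU : ∀ X, G X → Ul G X) (hf : Mo G f) (hX : Yg G 0 X) (hY : Yg G 0 Y) :
    Yg G 0 Z := by
  intro A hA m hm x
  have h1 : x ≫ h = 0 := by
    by_cases h2 : m = 1
    · subst h2
      obtain ⟨y, hy⟩ := (shiftFunctor C (1 : ℤ)).map_surjective (x ≫ h)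
      have h3 : y ≫ f = 0 := by
        apply (shiftFunctor C (1 : ℤ)).map_injective
        rw [Functor.map_comp, hy, Category.assoc, comp31 hT, comp_zero, Functor.map_zero]
      rw [← hy, hf A (hGU A hA) y h3, Functor.map_zero]
    · exact (hX.shift 1 (-1) (by norm_num)) A hA m (by omega) _
  obtain ⟨x', hx'⟩ := ce3 hT x h1
  rw [hx', hY A hA m hm x', zero_comp]

/-- The fiber of an epimorphism. -/
lemma Ep.fib (hg : Ep G g) (hY : Ul G Y) : Ul G X := by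
  intro W hW x
  obtain ⟨y, hy⟩ : ∃ y : Y ⟶ W, x = f ≫ y := by
    apply ye1' hT
    obtain ⟨l, hl⟩ : ∃ l, l = h ≫ x⟦(1 : ℤ)⟧' := ⟨_, rfl⟩
    rw [← hl]
    apply hg _ (hW.shift 1 0 (by norm_num))
    rw [hl, ← Category.assoc, comp23 hT, zero_comp]
  rw [hy, hY W hW y, comp_zero]

/-- The first morphism of a triangle is a monomorphism if the third object is in degrees `≥ 0`. -/
lemma Mo.of_tri (hZ : Yg G 0 Z) : Mo G f := by
  intro U hU n hn
  have h1 : n⟦(1 : ℤ)⟧' ≫ f⟦(1 : ℤ)⟧' = 0 := by rw [← Functor.map_comp, hn, Functor.map_zero]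
  obtain ⟨l, hl⟩ := ce1 hT _ h1
  apply (shiftFunctor C (1 : ℤ)).map_injective
  rw [hl, hU.hom_shift_zero hZ (by norm_num) l, zero_comp, Functor.map_zero]

/-- The second morphism of a triangle is an epimorphism if the first object is in degrees `≤ 0`. -/
lemma Ep.of_tri (hX : Ul G X) : Ep G g := by
  intro W hW n hn
  obtain ⟨l, hl⟩ := ye3 hT n hn
  rw [hl, hX.hom_shift_zero hW (by norm_num) l, comp_zero]

end

/-- A monomorphism which is an epimorphism is an isomorphism. -/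
lemma Mo.isIso (hGU : ∀ X, G X → Ul G X) {X Y : C} {f : X ⟶ Y} (hf : Mo G f) (hf' : Ep G f)
    (hX : Ul G X) (hX' : Yg G 0 X) (hY' : Yg G 0 Y) : IsIso f := by
  obtain ⟨W, g, h, hT⟩ := distinguished_cocone_triangle f
  have hg : g = 0 := hf' _ (hf.cofib hT hGU hX' hY') g (comp12 hT)
  obtain ⟨r, hr⟩ := split2' hT hg
  have h1 : h⟦(-1 : ℤ)⟧' ≫ (shiftShiftNeg X (1 : ℤ)).hom = 0 := by
    apply hf
    · refine Ul.retract hX (h⟦(-1 : ℤ)⟧' ≫ (shiftShiftNeg X (1 : ℤ)).hom)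
        ((shiftShiftNeg X (1 : ℤ)).inv ≫ r⟦(-1 : ℤ)⟧') ?_
      rw [Category.assoc, Iso.hom_inv_id_assoc, ← Functor.map_comp, hr,
        CategoryTheory.Functor.map_id]
    · have h2 : (shiftShiftNeg X (1 : ℤ)).hom ≫ f =
          f⟦(1 : ℤ)⟧'⟦(-1 : ℤ)⟧' ≫ (shiftShiftNeg Y (1 : ℤ)).hom :=
        ((shiftEquiv C (1 : ℤ)).unitIso.inv.naturality f).symm
      rw [Category.assoc, h2, ← Category.assoc, ← Functor.map_comp, comp31 hT, Functor.map_zero,
        zero_comp]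
  have h3 : h = 0 := by
    apply (shiftFunctor C (-1 : ℤ)).map_injective
    rw [← cancel_mono (shiftShiftNeg X (1 : ℤ)).hom, h1, Functor.map_zero, zero_comp]
  apply isIso1_of_isZero3 hT
  rw [IsZero.iff_id_eq_zero, ← hr, h3, zero_comp]

end

section

variable {C : Type u} [Category.{v} C] [Preadditive C] [HasZeroObject C] [HasShift C ℤ]
  [∀ n : ℤ, (shiftFunctor C n).Additive] [Pretriangulated C] [IsTriangulated C]
  [MonoidalCategory C]
  [SymmetricCategory C] [TensorTriangulated C] [MonoidalPreadditive C] [RightRigidCategory C]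
  {E : Type w} [Field E] {R : Realisation C E} {G : ObjectProperty C} (h : Hyp R G)

include h

lemma Hyp.yg_tensor {B V : C} {n : ℤ} (hB : G B) (hV : Yg G n V) : Yg G n (B ⊗ V) := by
  intro A hA m hm f
  obtain ⟨B', hB', ⟨hBB⟩⟩ : ∃ B' : C, G B' ∧ Nonempty (ExactPairing B B') :=
    ⟨_, h.dual _ hB, ⟨inferInstance⟩⟩
  obtain ⟨g, rfl⟩ : ∃ g : B' ⊗ A⟦m⟧ ⟶ V, tensorLeftHomEquiv (A⟦m⟧) B B' V g = f :=
    ⟨(tensorLeftHomEquiv (A⟦m⟧) B B' V).symm f, Equiv.apply_symm_apply _ _⟩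
  rw [hV.hom_zero (h.inSh_tensor hB' ⟨A, hA, ⟨Iso.refl _⟩⟩) hm g, cur_zero]

lemma Hyp.yg_tensor' {B V : C} {n : ℤ} (hB : G B) (hV : Yg G n V) : Yg G n (V ⊗ B) :=
  (h.yg_tensor hB hV).iso (β_ V B)

variable {K BB : C} {k : K ⟶ 𝟙_ C} {s : 𝟙_ C ⟶ BB} {d : BB ⟶ K⟦(1 : ℤ)⟧}

/-- Insertions are injective on the morphisms from objects of `G` to objects in degrees `≥ 0`. -/
theorem Hyp.flat (hT : Triangle.mk k s d ∈ distTriang C) (hBB : G BB) (hs : s ≠ 0) {V : C}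
    (hV : Yg G 0 V) {A : C} (hA : G A) (x : A ⟶ V) (hx : x ≫ sr s V = 0) : x = 0 := by
  have key : ∀ m, Yg G 0 (pw V K m) ∧
      ∃ y : A ⟶ pw V K m, y ≫ kp k V m = x ∧ y ≫ sr s (pw V K m) = 0 := by
    intro m
    induction m with
    | zero => exact ⟨hV, x, by simp [kp], hx⟩
    | succ m ih =>
      obtain ⟨hW, y, hy1, hy2⟩ := ih
      have hWB : Yg G 0 (pw V K m ⊗ BB) := h.yg_tensor' hBB hW
      have hW' : Yg G 0 (pw V K m ⊗ K) :=
        Yg.fib (tri_V hT (pw V K m)) hW (hWB.mono (by norm_num))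
      obtain ⟨y', hy'⟩ := ce2 (tri_V hT (pw V K m)) y hy2
      refine ⟨hW', y', ?_, ?_⟩
      · rw [kp, ← Category.assoc, ← hy', hy1]
      · have h1 : y ≫ sl s (pw V K m) = 0 := by
          rw [← cancel_mono (β_ BB (pw V K m)).hom, Category.assoc, sl_braid, hy2, zero_comp]
        have h2 : (y' ≫ sl s (pw V K m ⊗ K)) ≫ BB ◁ ze k (pw V K m) = 0 := by
          rw [Category.assoc, ← sl_nat, ← Category.assoc, ← hy', h1]
        have h3 : (y' ≫ sl s (pw V K m ⊗ K))⟦(1 : ℤ)⟧' ≫ (BB ◁ ze k (pw V K m))⟦(1 : ℤ)⟧' = 0 := by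
          rw [← Functor.map_comp, h2, Functor.map_zero]
        obtain ⟨l, hl⟩ := ce1 (tensor_dist BB (tri_V hT (pw V K m))) _ h3
        have h4 : l = 0 := (h.yg_tensor hBB hWB).hom_zero (m := 1)
          ⟨A, hA, ⟨Iso.refl _⟩⟩ (by norm_num) l
        have h5 : y' ≫ sl s (pw V K m ⊗ K) = 0 := by
          apply (shiftFunctor C (1 : ℤ)).map_injective
          rw [hl, h4, zero_comp, Functor.map_zero]
        change y' ≫ sr s (pw V K m ⊗ K) = 0
        rw [← sl_braid, ← Category.assoc, h5, zero_comp]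
  obtain ⟨n, hn⟩ := h.nilp hBB hs hT
  obtain ⟨-, y, hy, -⟩ := key n
  rw [← hy, hn n le_rfl V, comp_zero]

/-- Tensoring with the fiber of a section. -/
lemma Hyp.flat_yg (hT : Triangle.mk k s d ∈ distTriang C) (hBB : G BB) (hs : s ≠ 0) {V : C}
    (hV : Yg G 0 V) : Yg G 1 (V ⊗ K) :=
  Yg.fib_inj (tri_V hT V) hV (h.yg_tensor' hBB hV)
    (fun _ hA a ha => h.flat hT hBB hs hV hA a ha)

omit [IsTriangulated C] in
/-- Insertions are injective on the morphisms from objects in degrees `≤ 0` to objects in degrees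
`≥ 0`. -/
lemma Hyp.sl_inj [IsTriangulated C] (hBB : G BB) (hs : s ≠ 0) {U V : C} (hU : Ul G U)
    (hV : Yg G 0 V) (n : U ⟶ V) (hn : n ≫ sl s V = 0) : n = 0 := by
  obtain ⟨K, k, d, hT⟩ := distinguished_cocone_triangle₁ s
  have h1 : n ≫ sr s V = 0 := by rw [← sl_braid, ← Category.assoc, hn, zero_comp]
  obtain ⟨l, hl⟩ := ce2 (tri_V hT V) n h1
  rw [hl, hU _ (h.flat_yg hT hBB hs hV) l, zero_comp]

end

end Pool.Agent.T6.H13.GP
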