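import Pool.Agent.T6.H13.GP.Nil

/-!
# The hypotheses on the class of generators, and first consequences
-/

set_option autoImplicit false
set_option linter.unusedSectionVars false
set_option linter.unusedSimpArgs false
set_option backward.isDefEq.respectTransparency false
set_option backward.defeqAttrib.useBackward true

open CategoryTheory Limits MonoidalCategory Pretriangulated Triangulated

namespace Pool.Agent.T6.H13.GP

open Pool.Agent.Y116.MT Pool.Agent.V1178.MT Pool.Agent.T6.H13.MT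

universe v u w v' u' w'

open Functor.LaxMonoidal

section

variable {C : Type u} [Category.{v} C] [Preadditive C] [HasZeroObject C] [HasShift C ℤ]
  [∀ n : ℤ, (shiftFunctor C n).Additive] [Pretriangulated C] [IsTriangulated C]
  [MonoidalCategory C]
  [SymmetricCategory C] [TensorTriangulated C] [MonoidalPreadditive C] [RightRigidCategory C]
  {E : Type w} [Field E]

/-- The hypotheses on the realisation `R` and the class `G` of objects. -/
structure Hyp (R : Realisation C E) (G : ObjectProperty C) : Prop where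
  unit : G (𝟙_ C)
  tensor (X Y : C) : G X → G Y → G (X ⊗ Y)
  dual (X : C) : G X → G Xᘁ
  deg (X : C) : G X → R.Deg X 0
  nil {B K : C} (hB : G B) {s : 𝟙_ C ⟶ B} (hs : s ≠ 0) {k : K ⟶ 𝟙_ C} {d : B ⟶ K⟦(1 : ℤ)⟧}
    (hT : Triangle.mk k s d ∈ distTriang C) : ∃ n : ℕ, kp k (𝟙_ C) n = 0
  vanish (X : C) : G X → ∀ n : ℕ, 0 < n → ∀ f : 𝟙_ C ⟶ X⟦-(n : ℤ)⟧, f = 0
  inj (X : C) : G X → ∀ f : 𝟙_ C ⟶ X, R.H.map f = 0 → f = 0

variable {R : Realisation C E} {G : ObjectProperty C} (h : Hyp R G)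

include h in
lemma Hyp.nilp {B K : C} (hB : G B) {s : 𝟙_ C ⟶ B} (hs : s ≠ 0) {k : K ⟶ 𝟙_ C}
    {d : B ⟶ K⟦(1 : ℤ)⟧} (hT : Triangle.mk k s d ∈ distTriang C) :
    ∃ n₀ : ℕ, ∀ n, n₀ ≤ n → ∀ V : C, kp k V n = 0 := by
  obtain ⟨n, hn⟩ := h.nil hB hs hT
  exact ⟨n, fun m hm V => kp_all k hn m hm V⟩

include h in
lemma Hyp.yg {Y : C} (hY : G Y) : Yg G 0 Y := by
  intro X hX m hm f
  apply shift_hom_zero
  intro g
  apply eq_zero_of_nm
  rw [← cancel_mono (lShift Y Xᘁ (-m)).hom, zero_comp]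
  obtain ⟨n, hn, rfl⟩ : ∃ n : ℕ, 0 < n ∧ m = n := ⟨m.toNat, by omega, by omega⟩
  exact h.vanish _ (h.tensor _ _ hY (h.dual _ hX)) n hn _

include h in
lemma Hyp.faithful {X Y : C} (hX : G X) (hY : G Y) (f : X ⟶ Y) (hf : R.H.map f = 0) : f = 0 := by
  apply eq_zero_of_nm
  apply h.inj _ (h.tensor _ _ hY (h.dual _ hX))
  rw [nm, Functor.map_comp, map_whisker_zero (h.deg _ hX) f hf, comp_zero]

include h in
lemma Hyp.ul {X : C} (hX : G X) : Ul G X := Ul.of_inSh le_rfl (InSh.of hX)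

include h in
lemma Hyp.inSh_tensor {m : ℤ} {A B : C} (hB : G B) (hA : InSh G m A) : InSh G m (B ⊗ A) := by
  obtain ⟨X, hX, ⟨e⟩⟩ := hA
  exact ⟨B ⊗ X, h.tensor _ _ hB hX, ⟨whiskerLeftIso B e ≪≫ rShift B X m⟩⟩

/-- `InSh` objects are in `Yg`. -/
lemma Hyp.yg_inSh (h : Hyp R G) {m n : ℤ} {A : C} (hA : InSh G m A) (hmn : n ≤ -m) :
    Yg G n A := by
  obtain ⟨X, hX, ⟨e⟩⟩ := hA
  exact ((h.yg hX).shift m (-m) (by ring)).mono hmn |>.iso e

section Sec

variable {B : C} (hB : R.Deg B 0) {s : 𝟙_ C ⟶ B} (hs : R.H.map s ≠ 0)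

include hs in
lemma mono_H_s : Mono (R.H.map s) := by
  rw [ModuleCat.mono_iff_injective]
  have h1 : Module.finrank E (R.H.obj (𝟙_ C)) = 1 := finrank_unit R
  intro x y hxy
  by_contra hne
  have hxy' : R.H.map s (x - y) = 0 := by
    rw [map_sub, hxy, sub_self]
  apply hs
  ext z
  obtain ⟨c, hc⟩ := exists_smul_eq_of_finrank_eq_one h1 (sub_ne_zero.2 hne) z
  rw [← hc]
  change (R.H.map s).hom (c • (x - y)) = 0
  rw [map_smul]
  change c • (R.H.map s (x - y)) = 0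
  rw [hxy', smul_zero]

include hB hs in
lemma mono_H_whisker (M : C) : Mono (R.H.map (s ▷ M)) := by
  have h1 := hB.isIso_mu M
  have h2 := (deg_unit (R := R)).isIso_mu M
  have h3 := mono_H_s hs
  have h4 := mono_whisker (R.H.map s) (R.H.obj M)
  have h5 : R.H.map (s ▷ M) = inv (μ R.H (𝟙_ C) M) ≫ R.H.map s ▷ R.H.obj M ≫ μ R.H B M := by
    rw [μ_natural_left, IsIso.inv_hom_id_assoc]
  rw [h5]
  infer_instance

include hB hs in
lemma mono_H_sl (M : C) : Mono (R.H.map (sl s M)) := by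
  have := mono_H_whisker hB hs M
  rw [sl, Functor.map_comp]
  infer_instance

include hB hs in
lemma mono_H_sl_shift (M : C) (i : ℤ) : Mono (R.H.map ((sl s M)⟦i⟧')) := by
  have := mono_H_whisker hB hs (M⟦i⟧)
  have h1 : (s ▷ M)⟦i⟧' = (rShift (𝟙_ C) M i).inv ≫ s ▷ (M⟦i⟧) ≫ (rShift B M i).hom := by
    rw [rShift_natural_left, Iso.inv_hom_id_assoc]
  rw [sl, Functor.map_comp, h1, Functor.map_comp, Functor.map_comp, Functor.map_comp]
  infer_instance

include hB hs in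
lemma mono_H_sr_shift (M : C) (i : ℤ) : Mono (R.H.map ((sr s M)⟦i⟧')) := by
  have := mono_H_sl_shift hB hs M i
  rw [← sl_braid, Functor.map_comp, Functor.map_comp]
  infer_instance

end Sec

include h in
/-- Insertions are injective on morphisms between objects of `G`. -/
lemma Hyp.sl_cancel {B : C} (hB : G B) {s : 𝟙_ C ⟶ B} (hs : s ≠ 0) {X Y : C} (hX : G X)
    (hY : G Y) (f : X ⟶ Y) (hf : f ≫ sl s Y = 0) : f = 0 := by
  apply h.faithful hX hY
  have h1 : R.H.map s ≠ 0 := fun h2 => hs (h.inj _ hB s h2)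
  have h2 := mono_H_sl (h.deg _ hB) h1 Y
  rw [← cancel_mono (R.H.map (sl s Y)), ← Functor.map_comp, hf, Functor.map_zero, zero_comp]

include h in
lemma Hyp.sr_cancel {B : C} (hB : G B) {s : 𝟙_ C ⟶ B} (hs : s ≠ 0) {X Y : C} (hX : G X)
    (hY : G Y) (f : X ⟶ Y) (hf : f ≫ sr s Y = 0) : f = 0 := by
  apply h.sl_cancel hB hs hX hY
  rw [← cancel_mono (β_ B Y).hom, Category.assoc, sl_braid, hf, zero_comp]

include h in
lemma Hyp.sq_ne_zero {B : C} (hB : G B) {s : 𝟙_ C ⟶ B} (hs : s ≠ 0) : sq s ≠ 0 := fun h1 =>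
  hs (h.sl_cancel hB hs h.unit hB s h1)

end

end Pool.Agent.T6.H13.GP
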