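import Pool.Agent.T6.H13.GP.Theta

/-!
# The image of a morphism which is regular up to a section
-/

set_option autoImplicit false
set_option linter.unusedSectionVars false
set_option linter.unusedSimpArgs false
set_option backward.isDefEq.respectTransparency false
set_option backward.defeqAttrib.useBackward true

open CategoryTheory Limits MonoidalCategory Pretriangulated Triangulated

namespace Pool.Agent.T6.H13.GP

open Pool.Agent.Y116.MT Pool.Agent.V1178.MT Pool.Agent.T6.H13.MT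

universe v u w v' u' w'

section

variable {C : Type u} [Category.{v} C] [MonoidalCategory C] [SymmetricCategory C]

/-- Two insertions, moved to the right. -/
def ww {B : C} (s : 𝟙_ C ⟶ B) {M N : C} (y : M ⟶ B ⊗ N) : M ⟶ N ⊗ (B ⊗ B) :=
  y ≫ sl s (B ⊗ N) ≫ (α_ B B N).inv ≫ (β_ (B ⊗ B) N).hom

lemma ww_comp {B : C} (s : 𝟙_ C ⟶ B) {M M' N : C} (f : M' ⟶ M) (y : M ⟶ B ⊗ N) :
    ww s (f ≫ y) = f ≫ ww s y := by
  simp only [ww, Category.assoc]

lemma ww_map {B : C} (s : 𝟙_ C ⟶ B) {M N N' : C} (y : M ⟶ B ⊗ N) (f : N ⟶ N') :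
    ww s (y ≫ B ◁ f) = ww s y ≫ f ▷ (B ⊗ B) := by
  simp only [ww, Category.assoc]
  rw [← Category.assoc (B ◁ f), sl_nat, Category.assoc, ← BraidedCategory.braiding_naturality_right]
  simp

lemma ww_sl {B : C} (s : 𝟙_ C ⟶ B) (N : C) : ww s (sl s N) = sr (sq s) N := by
  rw [← sl_braid, ww, ← Category.assoc (sl s N), sl_nat, ← sl_sq]
  simp

end

section

variable {C : Type u} [Category.{v} C] [Preadditive C] [HasZeroObject C] [HasShift C ℤ]
  [∀ n : ℤ, (shiftFunctor C n).Additive] [Pretriangulated C] [IsTriangulated C]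
  [MonoidalCategory C]
  [SymmetricCategory C] [TensorTriangulated C] [MonoidalPreadditive C] [RightRigidCategory C]
  {E : Type w} [Field E] {R : Realisation C E} {G : ObjectProperty C} (h : Hyp R G)
  {K BB : C} {k : K ⟶ 𝟙_ C} {s : 𝟙_ C ⟶ BB} {d : BB ⟶ K⟦(1 : ℤ)⟧}
  (hT : Triangle.mk k s d ∈ distTriang C) (hBB : G BB) (hs : s ≠ 0)

lemma s_two (s : 𝟙_ C ⟶ BB) : s ≫ sl s BB = s ≫ sr s BB := by
  simp only [sl, sr]
  rw [leftUnitor_inv_naturality_assoc, rightUnitor_inv_naturality_assoc, whisker_exchange,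
    unitors_inv_equal]

include h hT hBB hs in
/-- The insertion on the cofiber of the section factors through an object of `G`. -/
theorem exists_j : ∃ (j : K⟦(1 : ℤ)⟧ ⟶ BB ⊗ BB),
    ∃ r : BB ⊗ BB ⟶ K⟦(1 : ℤ)⟧ ⊗ BB, sr s (K⟦(1 : ℤ)⟧) = j ≫ r := by
  obtain ⟨j, hj⟩ := ye3 hT (sl s BB - sr s BB) (by
    rw [Preadditive.comp_sub, s_two, sub_self])
  refine ⟨j, -(d ▷ BB), ?_⟩
  have h1 : d ≫ (sr s (K⟦(1 : ℤ)⟧) + j ≫ d ▷ BB) = 0 := by
    rw [Preadditive.comp_add, sr_nat, ← Category.assoc, ← hj, Preadditive.sub_comp,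
      add_sub_cancel]
    simp only [sl, Category.assoc]
    rw [wr_comp_zero (comp23 hT), comp_zero]
  obtain ⟨θ, hθ⟩ := ye1 hT _ h1
  have h2 : θ = 0 := by
    have h3 : Yg G 1 (𝟙_ C ⊗ (BB ⊗ K)) := NV.base h hT hBB hs hBB _ h.unit
    have e : K⟦(1 : ℤ)⟧ ⊗ BB ≅ (𝟙_ C ⊗ (BB ⊗ K))⟦(1 : ℤ)⟧ :=
      lShift K BB 1 ≪≫ (shiftFunctor C (1 : ℤ)).mapIso (β_ K BB ≪≫ (λ_ _).symm)
    have h4 : Yg G 0 (K⟦(1 : ℤ)⟧ ⊗ BB) := (h3.shift 1 0 (by norm_num)).iso e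
    exact h4.hom_zero (m := 1) ⟨𝟙_ C, h.unit, ⟨Iso.refl _⟩⟩ (by norm_num) θ
  rw [h2, comp_zero] at hθ
  rw [Preadditive.comp_neg]
  exact eq_neg_of_add_eq_zero_left hθ

end

section

variable {C : Type u} [Category.{v} C] [Preadditive C] [HasZeroObject C] [HasShift C ℤ]
  [∀ n : ℤ, (shiftFunctor C n).Additive] [Pretriangulated C] [IsTriangulated C]
  [MonoidalCategory C]
  [SymmetricCategory C] [TensorTriangulated C] [MonoidalPreadditive C] [RightRigidCategory C]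
  {G : ObjectProperty C}
  {Λ : Type*} {E : Λ → Type w} [∀ l, Field (E l)] {R : ∀ l, Realisation C (E l)}
  {T : Dat G}

/-- The approximation of the identity. -/
def eps (D : Lev R T) : D.Eo ⟶ D.Lo ⊗ (T.B ⊗ T.B) := ww T.s (D.e ≫ T.x₀ ≫ T.B ◁ D.a)

lemma eps_tra {D D' : Lev R T} {σ : D'.Eo ⟶ D.Eo} {ι : D.Lo ⟶ D'.Lo} (h : Tra D D' σ ι) :
    σ ≫ eps D ≫ ι ▷ (T.B ⊗ T.B) = eps D' := by
  obtain ⟨h1, -, h3, -⟩ := h.props
  rw [eps, ← ww_map, ← ww_comp, eps, ← h1, ← h3]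
  simp only [Category.assoc, MonoidalCategory.whiskerLeft_comp]

lemma eps_h (D : Lev R T) : eps D ≫ D.h ▷ (T.B ⊗ T.B) = D.e ≫ ww T.s (T.x₀ ≫ T.B ◁ T.u) := by
  rw [eps, ← ww_map, ← ww_comp]
  simp only [Category.assoc]
  rw [← MonoidalCategory.whiskerLeft_comp, D.ah]

lemma δ_eps_h (D : Lev R T) : D.δ ≫ eps D ≫ D.h ▷ (T.B ⊗ T.B) = T.u ≫ sr (sq T.s) T.X := by
  rw [eps_h, ← Category.assoc, D.δe, ← ww_comp, T.reg, ww_comp, ww_sl]

variable {l₀ : Λ} (hyp : Hyp (R l₀) G) (hdeg : ∀ X, G X → ∀ l, (R l).Deg X 0)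

include hyp hdeg in
/-- The morphism between the towers. -/
theorem exists_g (D : Lev R T) : ∃ (D' : Lev R T) (σ : D'.Eo ⟶ D.Eo) (ι : D.Lo ⟶ D'.Lo)
    (g : D'.Eo ⟶ D'.Lo), Tra D D' σ ι ∧ g ≫ sr (sq T.s) D'.Lo = eps D' := by
  have hBB := hyp.tensor _ _ T.hB T.hB
  have hsq := hyp.sq_ne_zero T.hB T.hs
  obtain ⟨K, k, d, hT⟩ := distinguished_cocone_triangle₁ (sq T.s)
  obtain ⟨j, hr⟩ := exists_j hyp hT hBB hsq
  obtain ⟨D', σ, ι, h1, h2⟩ := kill' hT hyp hdeg j hr (hyp.tensor _ _ hBB hBB) (D := D)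
    (eps D ≫ D.Lo ◁ d) (by
      rw [Category.assoc, whisker_exchange, ← Category.assoc (eps D), ← Category.assoc, δ_eps_h,
        Category.assoc]
      simp only [sr, Category.assoc]
      rw [wl_comp_zero (comp23 hT), comp_zero, comp_zero])
  have h3 : eps D' ≫ D'.Lo ◁ d = 0 := by
    rw [← eps_tra h1, ← h2]
    simp only [Category.assoc]
    rw [whisker_exchange]
  obtain ⟨g, hg⟩ := ce3 (tri_V hT D'.Lo) (eps D') (by
    rw [← Category.assoc, h3, zero_comp])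
  exact ⟨D', σ, ι, g, h1, hg.symm⟩

variable {D : Lev R T}

include hyp in
/-- The comparison morphism of the two towers. -/
lemma exists_hE (D : Lev R T) : ∃ f : D.Lo ⟶ D.Eo, f ≫ D.e = D.h := by
  apply D.hlift _ D.hL
  apply D.haY _ (hyp.yg (hyp.tensor _ _ T.hB T.hX))
  rw [← Category.assoc, D.ah, T.u_q₀]

lemma eq_of_e (D : Lev R T) {U : C} (hU : Ul G U) {f g : U ⟶ D.Eo} (h : f ≫ D.e = g ≫ D.e) :
    f = g := by
  rw [← sub_eq_zero]
  apply D.heU U hU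
  rw [Preadditive.sub_comp, h, sub_self]

include hyp in
lemma δ_g_h {g : D.Eo ⟶ D.Lo} (hg : g ≫ sr (sq T.s) D.Lo = eps D) :
    D.δ ≫ g ≫ D.h = T.u := by
  rw [← sub_eq_zero]
  apply hyp.sr_cancel (hyp.tensor _ _ T.hB T.hB) (hyp.sq_ne_zero T.hB T.hs) T.hP T.hX
  rw [Preadditive.sub_comp]
  simp only [Category.assoc]
  rw [sr_nat, ← Category.assoc g, hg, δ_eps_h, sub_self]

include hyp hdeg in
/-- The idempotent. -/
theorem exists_idem (T : Dat G) : ∃ (D : Lev R T) (g : D.Eo ⟶ D.Lo) (f : D.Lo ⟶ D.Eo),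
    g ≫ sr (sq T.s) D.Lo = eps D ∧ f ≫ D.e = D.h ∧ g ≫ f ≫ g = g := by
  obtain ⟨D, -, -, g, -, hg⟩ := exists_g hyp hdeg (lev0 hyp hdeg T : Lev R T)
  obtain ⟨f, hf⟩ := exists_hE hyp D
  have hBB := hyp.tensor _ _ T.hB T.hB
  have hsq := hyp.sq_ne_zero T.hB T.hs
  obtain ⟨K, k, d, hT⟩ := distinguished_cocone_triangle₁ (sq T.s)
  have h1 : D.δ ≫ g ≫ f = D.δ := by
    apply eq_of_e D (hyp.ul T.hP)
    simp only [Category.assoc]
    rw [hf, δ_g_h hyp hg, D.δe]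
  have h2 : D.δ ≫ ((g ≫ f ≫ g - g) ≫ (ρ_ D.Lo).inv) ≫ D.h ▷ (𝟙_ C) = 0 := by
    rw [Category.assoc, ← rightUnitor_inv_naturality, ← Category.assoc, ← Category.assoc,
      Preadditive.comp_sub, Preadditive.sub_comp]
    have h3 : (D.δ ≫ g ≫ f ≫ g) ≫ D.h = D.δ ≫ g ≫ D.h := by
      rw [← Category.assoc g, ← Category.assoc, h1, Category.assoc]
    rw [h3, Category.assoc D.δ g, sub_self, zero_comp]
  obtain ⟨D', σ, ι, h4, h5⟩ := kill hT hyp hdeg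
    (fun m => NV.pw hyp hT hBB hsq hyp.unit m) _ h2
  have h6 : σ ≫ (g ≫ f ≫ g - g) ≫ ι = 0 := by
    rw [Category.assoc, ← rightUnitor_inv_naturality] at h5
    rw [← cancel_mono (ρ_ D'.Lo).inv, zero_comp, ← h5]
    simp only [Category.assoc]
  obtain ⟨f', hf'⟩ := exists_hE hyp D'
  obtain ⟨t1, t2, t3, t4⟩ := h4.props
  have h7 : ι ≫ f' ≫ σ = f := by
    apply eq_of_e D D.hL
    simp only [Category.assoc]
    rw [t1, hf', t4, hf]
  refine ⟨D', σ ≫ g ≫ ι, f', ?_, hf', ?_⟩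
  · rw [← eps_tra h4, ← hg]
    simp only [Category.assoc]
    rw [sr_nat]
  · have h8 : (σ ≫ g ≫ ι) ≫ f' ≫ σ ≫ g ≫ ι = σ ≫ g ≫ (ι ≫ f' ≫ σ) ≫ g ≫ ι := by
      simp only [Category.assoc]
    rw [h8, h7, ← sub_eq_zero, ← h6]
    simp only [Preadditive.comp_sub, Preadditive.sub_comp, Category.assoc]

lemma isZero_retr {A : Type*} [Category A] [HasZeroMorphisms A] {X Y : A} (h : IsZero X)
    (i : Y ⟶ X) (r : X ⟶ Y) (hir : i ≫ r = 𝟙 _) : IsZero Y := by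
  rw [IsZero.iff_id_eq_zero, ← hir, h.eq_of_tgt i 0, zero_comp]

/-- The image of a morphism: properties of the object `N` with `P ⟶ N ⟶ X`. -/
structure IsImg (R : ∀ l, Realisation C (E l)) (G : ObjectProperty C) {P X N : C} (p : P ⟶ N)
    (i : N ⟶ X) : Prop where
  ul : Ul G N
  yg : Yg G 0 N
  le : AllLE R 0 N
  ge : AllGE R 0 N
  epi : ∀ Y, Yg G 0 Y → ∀ f : N ⟶ Y, p ≫ f = 0 → f = 0
  mono : ∀ U, Ul G U → ∀ f : U ⟶ N, f ≫ i = 0 → f = 0
  epiR : ∀ l, Epi ((R l).H.map (p⟦(0 : ℤ)⟧'))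
  monoR : ∀ l, Mono ((R l).H.map (i⟦(0 : ℤ)⟧'))

include hyp hdeg in
/-- The image exists. -/
theorem exists_image [IsIdempotentComplete C] (T : Dat G) :
    ∃ (N : C) (p : T.P ⟶ N) (i : N ⟶ T.X), p ≫ i = T.u ∧ IsImg R G p i ∧
      ∀ U, Ul G U → ∀ n : U ⟶ T.X, n ≫ T.q₀ = 0 → ∃ n' : U ⟶ N, n' ≫ i = n := by
  obtain ⟨D, g, f, hg, hf, hgf⟩ := exists_idem hyp hdeg T
  have hBB := hyp.tensor _ _ T.hB T.hB
  have hsq := hyp.sq_ne_zero T.hB T.hs
  obtain ⟨K, k, d, hT⟩ := distinguished_cocone_triangle₁ (sq T.s)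
  have hidem : (g ≫ f) ≫ g ≫ f = g ≫ f := by
    rw [← Category.assoc, Category.assoc g f g, hgf]
  obtain ⟨N, i, r, hir, hri⟩ := IsIdempotentComplete.idempotents_split D.Eo (g ≫ f) hidem
  have h1 : D.δ ≫ g ≫ f = D.δ := by
    apply eq_of_e D (hyp.ul T.hP)
    simp only [Category.assoc]
    rw [hf, δ_g_h hyp hg, D.δe]
  have h2 : D.a ≫ f = D.δ := by
    apply eq_of_e D (hyp.ul T.hP)
    rw [Category.assoc, hf, D.ah, D.δe]
  have h3 : (i ≫ g) ≫ f ≫ r = 𝟙 N := by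
    have : (i ≫ g) ≫ f ≫ r = i ≫ (g ≫ f) ≫ r := by simp only [Category.assoc]
    rw [this, ← hri, Category.assoc, hir, Category.comp_id, hir]
  have h4 : D.δ ≫ r = D.a ≫ f ≫ r := by rw [← Category.assoc, h2]
  refine ⟨N, D.δ ≫ r, i ≫ D.e, ?_, ⟨D.hL.retract _ _ h3, D.hE.retract _ _ hir, ?_, ?_, ?_, ?_,
    ?_, ?_⟩, ?_⟩
  · have : (D.δ ≫ r) ≫ i ≫ D.e = (D.δ ≫ r ≫ i) ≫ D.e := by simp only [Category.assoc]
    rw [this, hri, h1, D.δe]
  · intro l n hn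
    exact isZero_retr (D.hLR l n hn) ((R l).H.map ((i ≫ g)⟦n⟧')) ((R l).H.map ((f ≫ r)⟦n⟧'))
      (by rw [← Functor.map_comp, ← Functor.map_comp, h3, CategoryTheory.Functor.map_id,
        CategoryTheory.Functor.map_id])
  · intro l n hn
    exact isZero_retr (D.hER l n hn) ((R l).H.map (i⟦n⟧')) ((R l).H.map (r⟦n⟧'))
      (by rw [← Functor.map_comp, ← Functor.map_comp, hir, CategoryTheory.Functor.map_id,
        CategoryTheory.Functor.map_id])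
  · intro Y hY y hy
    have h5 : f ≫ r ≫ y = 0 := by
      apply D.haY Y hY
      rw [← hy, h4]
      simp only [Category.assoc]
    rw [← Category.id_comp y, ← h3]
    simp only [Category.assoc]
    rw [h5, comp_zero, comp_zero]
  · intro U hU y hy
    have h5 : y ≫ i = 0 := by
      apply D.heU U hU
      rw [Category.assoc, hy]
    rw [← Category.comp_id y, ← hir, ← Category.assoc, h5, zero_comp]
  · intro l
    have e1 := D.haR l
    have e2 : Epi ((R l).H.map ((f ≫ r)⟦(0 : ℤ)⟧')) := by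
      have : IsSplitEpi ((R l).H.map ((f ≫ r)⟦(0 : ℤ)⟧')) := ⟨⟨⟨(R l).H.map ((i ≫ g)⟦(0 : ℤ)⟧'), by
        rw [← Functor.map_comp, ← Functor.map_comp, h3, CategoryTheory.Functor.map_id,
          CategoryTheory.Functor.map_id]⟩⟩⟩
      infer_instance
    rw [h4, Functor.map_comp, Functor.map_comp]
    exact epi_comp _ _
  · intro l
    have e1 := D.heR l
    have e2 : Mono ((R l).H.map (i⟦(0 : ℤ)⟧')) := by
      have : IsSplitMono ((R l).H.map (i⟦(0 : ℤ)⟧')) := ⟨⟨⟨(R l).H.map (r⟦(0 : ℤ)⟧'), by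
        rw [← Functor.map_comp, ← Functor.map_comp, hir, CategoryTheory.Functor.map_id,
          CategoryTheory.Functor.map_id]⟩⟩⟩
      infer_instance
    rw [Functor.map_comp, Functor.map_comp]
    exact mono_comp _ _
  · intro U hU n hn
    obtain ⟨n', hn'⟩ := D.hlift U hU n hn
    refine ⟨n' ≫ r, ?_⟩
    have e1 : (n' ≫ r) ≫ i ≫ D.e = n' ≫ g ≫ D.h := by
      have : (n' ≫ r) ≫ i ≫ D.e = n' ≫ (r ≫ i) ≫ D.e := by simp only [Category.assoc]
      rw [this, hri, Category.assoc g, hf]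
    rw [e1, ← sub_eq_zero]
    have e2 : (n' ≫ g ≫ D.h - n) ≫ sr (sq T.s) T.X = 0 := by
      have e3 : (n' ≫ g ≫ D.h) ≫ sr (sq T.s) T.X = n ≫ sr (sq T.s) T.X := by
        simp only [Category.assoc]
        rw [sr_nat, ← Category.assoc g, hg, eps_h, ← Category.assoc, hn', ← ww_comp]
        have e4 : n ≫ T.x₀ ≫ T.B ◁ T.u = n ≫ sl T.s T.X := by
          rw [Dat.q₀, Preadditive.comp_sub, sub_eq_zero] at hn
          exact hn.symm
        rw [e4, ww_comp, ww_sl]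
      rw [Preadditive.sub_comp, e3, sub_self]
    obtain ⟨l, hl⟩ := ce2 (tri_V hT T.X) _ e2
    have e5 : Yg G 1 (T.X ⊗ K) :=
      (NV.base hyp hT hBB hsq T.hX _ hyp.unit).iso (λ_ (T.X ⊗ K)).symm
    rw [hl, hU _ e5 l, zero_comp]

end

end Pool.Agent.T6.H13.GP
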