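import Pool.Agent.T6.H13.MT.Lift

/-!
# Insertion of a section `s : 𝟙 ⟶ B`
-/

set_option autoImplicit false
set_option linter.unusedSectionVars false
set_option linter.unusedSimpArgs false
set_option backward.isDefEq.respectTransparency false
set_option backward.defeqAttrib.useBackward true

open CategoryTheory Limits MonoidalCategory Pretriangulated Triangulated

namespace Pool.Agent.T6.H13.GP

open Pool.Agent.Y116.MT Pool.Agent.V1178.MT Pool.Agent.T6.H13.MT

universe v u w v' u' w'

section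

variable {C : Type u} [Category.{v} C] [MonoidalCategory C]

/-- Insertion of `s` on the left. -/
def sl {B : C} (s : 𝟙_ C ⟶ B) (M : C) : M ⟶ B ⊗ M := (λ_ M).inv ≫ s ▷ M

/-- Insertion of `s` on the right. -/
def sr {B : C} (s : 𝟙_ C ⟶ B) (M : C) : M ⟶ M ⊗ B := (ρ_ M).inv ≫ M ◁ s

lemma sl_nat {B : C} (s : 𝟙_ C ⟶ B) {M M' : C} (f : M ⟶ M') :
    f ≫ sl s M' = sl s M ≫ B ◁ f := by
  simp only [sl, Category.assoc]
  rw [leftUnitor_inv_naturality_assoc, whisker_exchange]

lemma sr_nat {B : C} (s : 𝟙_ C ⟶ B) {M M' : C} (f : M ⟶ M') :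
    f ≫ sr s M' = sr s M ≫ f ▷ B := by
  simp only [sr, Category.assoc]
  rw [rightUnitor_inv_naturality_assoc, ← whisker_exchange]

lemma sl_tensor {B : C} (s : 𝟙_ C ⟶ B) (M V : C) :
    sl s (M ⊗ V) = sl s M ▷ V ≫ (α_ B M V).hom := by
  simp only [sl, comp_whiskerRight, Category.assoc]
  rw [associator_naturality_left]
  simp

lemma sr_tensor {B : C} (s : 𝟙_ C ⟶ B) (M V : C) :
    sr s (M ⊗ V) = M ◁ sr s V ≫ (α_ M V B).inv := by
  simp only [sr, MonoidalCategory.whiskerLeft_comp, Category.assoc]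
  rw [associator_inv_naturality_right]
  simp

/-- The square of a section. -/
def sq {B : C} (s : 𝟙_ C ⟶ B) : 𝟙_ C ⟶ B ⊗ B := s ≫ sl s B

lemma sl_sq {B : C} (s : 𝟙_ C ⟶ B) (M : C) :
    sl (sq s) M ≫ (α_ B B M).hom = sl s M ≫ B ◁ sl s M := by
  rw [← sl_nat, sl_tensor]
  simp only [sl, sq, comp_whiskerRight, Category.assoc]

variable [SymmetricCategory C]

lemma sl_braid {B : C} (s : 𝟙_ C ⟶ B) (M : C) : sl s M ≫ (β_ B M).hom = sr s M := by
  simp only [sl, sr, Category.assoc]
  rw [BraidedCategory.braiding_naturality_left, ← Category.assoc]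
  congr 1
  simp

/-- A morphism is killed by the square of `s` on the right if it is killed by two insertions on the
left. -/
lemma null_of_two {B : C} [Preadditive C] [MonoidalPreadditive C] (s : 𝟙_ C ⟶ B) {X M : C}
    (f : X ⟶ M) (h : f ≫ sl s M ≫ B ◁ sl s M = 0) : f ≫ sr (sq s) M = 0 := by
  rw [← sl_braid, ← cancel_mono (β_ (B ⊗ B) M).inv]
  simp only [Category.assoc, Iso.hom_inv_id, Category.comp_id, zero_comp]
  rw [← cancel_mono (α_ B B M).hom, Category.assoc, sl_sq, h, zero_comp]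

end

end Pool.Agent.T6.H13.GP
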