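import Pool.Agent.T6.H13.GP.Tools

/-!
# Kernels of the morphisms between objects of `G`
-/

set_option autoImplicit false
set_option linter.unusedSectionVars false
set_option linter.unusedSimpArgs false
set_option backward.isDefEq.respectTransparency false
set_option backward.defeqAttrib.useBackward true

open CategoryTheory Limits MonoidalCategory Pretriangulated Triangulated

namespace Pool.Agent.T6.H13.GP

open Pool.Agent.Y116.MT Pool.Agent.V1178.MT Pool.Agent.T6.H13.MT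

universe v u w v' u' w'

section

variable {C : Type u} [Category.{v} C] {E : Type w} [Field E] (H : C ⥤ ModuleCat.{w} E)

lemma map_comp_apply' {X Y Z : C} (f : X ⟶ Y) (g : Y ⟶ Z) (x : H.obj X) :
    H.map (f ≫ g) x = H.map g (H.map f x) := by
  rw [Functor.map_comp, ModuleCat.comp_apply]

end

section

variable {C : Type u} [Category.{v} C] [Preadditive C] [HasZeroObject C] [HasShift C ℤ]
  [∀ n : ℤ, (shiftFunctor C n).Additive] [Pretriangulated C] [IsTriangulated C]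
  [MonoidalCategory C]
  [SymmetricCategory C] [TensorTriangulated C] [MonoidalPreadditive C] [RightRigidCategory C]
  {G : ObjectProperty C}
  {Λ : Type*} {E : Λ → Type w} [∀ l, Field (E l)] {R : ∀ l, Realisation C (E l)}

variable (R) in
/-- `P ⟶ N ⟶ X` presents the kernel of `a : X ⟶ Y`. -/
structure IsKer (G : ObjectProperty C) {P N X Y : C} (p : P ⟶ N) (i : N ⟶ X)
    (a : X ⟶ Y) : Prop extends IsImg R G p i where
  ia : i ≫ a = 0
  lift : ∀ U, Ul G U → ∀ n : U ⟶ X, n ≫ a = 0 → ∃ n' : U ⟶ N, n' ≫ i = n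

variable {l₀ : Λ} (hyp : Hyp (R l₀) G) (hdeg : ∀ X, G X → ∀ l, (R l).Deg X 0)

include hyp hdeg in
/-- The kernel exists. -/
theorem exists_kernel [IsIdempotentComplete C] {X Y : C} (hX : G X) (hY : G Y) (f : X ⟶ Y) :
    ∃ (P N : C) (p : P ⟶ N) (i : N ⟶ X), G P ∧ IsKer R G p i f := by
  obtain ⟨B, s, e, hB, hs, he, hu⟩ := hyp.toolK hX hY f
  obtain ⟨B', hB', ⟨hBB⟩⟩ : ∃ B' : C, G B' ∧ Nonempty (ExactPairing B B') :=
    ⟨_, hyp.dual _ hB, ⟨inferInstance⟩⟩
  obtain ⟨u, hue⟩ : ∃ u : B' ⊗ X ⟶ X, tensorLeftHomEquiv X B B' X u = e :=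
    ⟨(tensorLeftHomEquiv X B B' X).symm e, Equiv.apply_symm_apply _ _⟩
  obtain ⟨x₀, hx₀⟩ : ∃ x₀ : X ⟶ B ⊗ (B' ⊗ X), x₀ = tensorLeftHomEquiv X B B' (B' ⊗ X) (𝟙 _) :=
    ⟨_, rfl⟩
  have h1 : x₀ ≫ B ◁ u = e := by
    rw [hx₀, ← cur_comp, Category.id_comp, hue]
  have h2 : u ≫ f = 0 := by
    apply (tensorLeftHomEquiv X B B' Y).injective
    rw [cur_comp, hue, he, cur_zero]
  let T : Dat G := ⟨B, B' ⊗ X, X, s, u, x₀, by rw [h1]; exact hu _ u h2, hB,
    hyp.tensor _ _ hB' hX, hX, hs⟩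
  obtain ⟨N, p, i, hpi, himg, hlift⟩ := exists_image hyp hdeg T
  have hpi' : p ≫ i = u := hpi
  refine ⟨B' ⊗ X, N, p, i, hyp.tensor _ _ hB' hX, himg, ?_, ?_⟩
  · apply himg.epi _ (hyp.yg hY)
    rw [← Category.assoc, hpi', h2]
  · intro U hU n hn
    apply hlift U hU n
    have h3 : T.q₀ = sl s X - e := by rw [← h1]; rfl
    rw [h3, Preadditive.comp_sub, hu U n hn, sub_self]

end

end Pool.Agent.T6.H13.GP
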