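import Pool.Agent.T6.H13.GP.NV

/-!
# The two towers
-/

set_option autoImplicit false
set_option linter.unusedSectionVars false
set_option linter.unusedSimpArgs false
set_option backward.isDefEq.respectTransparency false
set_option backward.defeqAttrib.useBackward true

open CategoryTheory Limits MonoidalCategory Pretriangulated Triangulated

namespace Pool.Agent.T6.H13.GP

open Pool.Agent.Y116.MT Pool.Agent.V1178.MT Pool.Agent.T6.H13.MT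

universe v u w v' u' w'

section

variable {C : Type u} [Category.{v} C] [Preadditive C] [HasZeroObject C] [HasShift C ℤ]
  [∀ n : ℤ, (shiftFunctor C n).Additive] [Pretriangulated C] [IsTriangulated C]
  [MonoidalCategory C]
  [SymmetricCategory C] [TensorTriangulated C] [MonoidalPreadditive C] [RightRigidCategory C]

/-- A morphism `u : P ⟶ X` between objects of `G` which is regular up to multiplication by a
section `s`. -/
structure Dat (G : ObjectProperty C) where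
  B : C
  P : C
  X : C
  s : 𝟙_ C ⟶ B
  u : P ⟶ X
  x₀ : X ⟶ B ⊗ P
  reg : u ≫ x₀ ≫ B ◁ u = u ≫ sl s X
  hB : G B
  hP : G P
  hX : G X
  hs : s ≠ 0

variable {G : ObjectProperty C}

/-- The complementary map. -/
def Dat.q₀ (T : Dat G) : T.X ⟶ T.B ⊗ T.X := sl T.s T.X - T.x₀ ≫ T.B ◁ T.u

lemma Dat.u_q₀ (T : Dat G) : T.u ≫ T.q₀ = 0 := by
  rw [Dat.q₀, Preadditive.comp_sub, T.reg, sub_self]

variable {Λ : Type*} {E : Λ → Type w} [∀ l, Field (E l)] (R : ∀ l, Realisation C (E l))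

/-- A level of the two towers. -/
structure Lev (T : Dat G) where
  k : ℕ
  Eo : C
  A : C
  δ : T.P ⟶ Eo
  e : Eo ⟶ T.X
  κ : A ⟶ Eo
  q : Eo ⟶ T.B ⊗ A
  Lo : C
  A' : C
  a : T.P ⟶ Lo
  h : Lo ⟶ T.X
  κ' : Lo ⟶ A'
  q' : A' ⟶ T.B ⊗ Lo
  rel : sl T.s Eo = e ≫ T.x₀ ≫ T.B ◁ δ + q ≫ T.B ◁ κ
  δe : δ ≫ e = T.u
  rel' : sl T.s Lo = h ≫ T.x₀ ≫ T.B ◁ a + κ' ≫ q'
  ah : a ≫ h = T.u
  q'h : q' ≫ T.B ◁ h = 0
  hA : InSh G (-k : ℤ) A
  hA' : InSh G (k : ℤ) A'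
  hE : Yg G 0 Eo
  heU : ∀ U, Ul G U → ∀ f : U ⟶ Eo, f ≫ e = 0 → f = 0
  hq : ∀ U, Ul G U → ∀ n : U ⟶ Eo, n ≫ e ≫ T.q₀ = 0 → n ≫ q = 0
  hlift : ∀ U, Ul G U → ∀ n : U ⟶ T.X, n ≫ T.q₀ = 0 → ∃ n' : U ⟶ Eo, n' ≫ e = n
  hL : Ul G Lo
  haY : ∀ Y, Yg G 0 Y → ∀ f : Lo ⟶ Y, a ≫ f = 0 → f = 0
  hER : AllGE R 0 Eo
  heR : ∀ l, Mono ((R l).H.map (e⟦(0 : ℤ)⟧'))
  hLR : AllLE R 0 Lo
  haR : ∀ l, Epi ((R l).H.map (a⟦(0 : ℤ)⟧'))

variable {R}

/-- One step of the two towers. -/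
structure Step {T : Dat G} (D D' : Lev R T) (σ : D'.Eo ⟶ D.Eo) (ι : D.Lo ⟶ D'.Lo) : Prop where
  σe : σ ≫ D.e = D'.e
  δσ : D'.δ ≫ σ = D.δ
  σq : σ ≫ D.q = 0
  aι : D.a ≫ ι = D'.a
  ιh : ι ≫ D'.h = D.h
  q'ι : D.q' ≫ T.B ◁ ι = 0

variable {l₀ : Λ} (hyp : Hyp (R l₀) G) (hdeg : ∀ X, G X → ∀ l, (R l).Deg X 0)

/-- The first level. -/
def lev0 (T : Dat G) : Lev R T where
  k := 0
  Eo := T.X
  A := T.X
  δ := T.u
  e := 𝟙 _
  κ := 𝟙 _
  q := T.q₀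
  Lo := T.P
  A' := T.P
  a := 𝟙 _
  h := T.u
  κ' := 𝟙 _
  q' := sl T.s T.P - T.u ≫ T.x₀
  rel := by rw [Dat.q₀]; simp
  δe := Category.comp_id _
  rel' := by simp
  ah := Category.id_comp _
  q'h := by rw [Preadditive.sub_comp, Category.assoc, T.reg, sl_nat, sub_self]
  hA := by simpa using InSh.of T.hX
  hA' := InSh.of T.hP
  hE := hyp.yg T.hX
  heU U hU f hf := by simpa using hf
  hq U hU n hn := by simpa using hn
  hlift U hU n hn := ⟨n, Category.comp_id _⟩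
  hL := hyp.ul T.hP
  haY Y hY f hf := by simpa using hf
  hER l i hi := hdeg _ T.hX l i (by omega)
  heR l := by
    rw [CategoryTheory.Functor.map_id, CategoryTheory.Functor.map_id]
    infer_instance
  hLR l i hi := hdeg _ T.hP l i (by omega)
  haR l := by
    rw [CategoryTheory.Functor.map_id, CategoryTheory.Functor.map_id]
    infer_instance

lemma InSh.deg {m : ℤ} {A : C} (hdeg : ∀ X, G X → ∀ l, (R l).Deg X 0) (hA : InSh G m A) (l : Λ) :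
    (R l).Deg A (-m) := by
  obtain ⟨X, hX, ⟨e⟩⟩ := hA
  exact ((hdeg X hX l).shift m (-m) (by ring)).iso e.symm

include hyp hdeg in
/-- The next step exists. -/
theorem exists_step {T : Dat G} (D : Lev R T) :
    ∃ (D' : Lev R T) (σ : D'.Eo ⟶ D.Eo) (ι : D.Lo ⟶ D'.Lo), Step D D' σ ι := by
  -- the right tower
  obtain ⟨E', κ, σ, hE⟩ := distinguished_cocone_triangle₂
    (D.q ≫ (shiftNegShift (T.B ⊗ D.A) (1 : ℤ)).inv)
  have hA : InSh G (-((D.k + 1 : ℕ) : ℤ)) ((T.B ⊗ D.A)⟦(-1 : ℤ)⟧) :=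
    (hyp.inSh_tensor T.hB D.hA).shift (-1) _ (by push_cast; ring)
  have hσq : σ ≫ D.q = 0 := by
    have := comp23 hE
    rwa [← Category.assoc, ← cancel_mono (shiftNegShift (T.B ⊗ D.A) (1 : ℤ)).hom,
      Category.assoc, Iso.inv_hom_id, Category.comp_id, zero_comp] at this
  have hlift1 : ∀ U, Ul G U → ∀ n : U ⟶ D.Eo, n ≫ D.e ≫ T.q₀ = 0 → ∃ n' : U ⟶ E', n' ≫ σ = n := by
    intro U hU n hn
    obtain ⟨n', hn'⟩ := ce3 hE n (by rw [← Category.assoc, D.hq U hU n hn, zero_comp])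
    exact ⟨n', hn'.symm⟩
  obtain ⟨δ, hδ⟩ := hlift1 T.P (hyp.ul T.hP) D.δ (by
    rw [← Category.assoc, D.δe, T.u_q₀])
  have hrel0 : (sl T.s E' - (σ ≫ D.e) ≫ T.x₀ ≫ T.B ◁ δ) ≫ T.B ◁ σ = 0 := by
    rw [Preadditive.sub_comp, ← sl_nat, D.rel]
    simp only [Category.assoc, Preadditive.comp_add]
    rw [← MonoidalCategory.whiskerLeft_comp, hδ, ← Category.assoc σ D.q, hσq, zero_comp, add_zero,
      sub_self]
  obtain ⟨q, hq⟩ := ce2 (tensor_dist T.B hE) _ hrel0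
  have hYA : Yg G 1 ((T.B ⊗ D.A)⟦(-1 : ℤ)⟧) := hyp.yg_inSh hA (by push_cast; omega)
  have hYBA : Yg G 1 (T.B ⊗ ((T.B ⊗ D.A)⟦(-1 : ℤ)⟧)) :=
    hyp.yg_inSh (hyp.inSh_tensor T.hB hA) (by push_cast; omega)
  -- the left tower
  let qf : T.Bᘁ ⊗ D.A' ⟶ D.Lo := (tensorLeftHomEquiv D.A' T.B T.Bᘁ D.Lo).symm D.q'
  have hqf : ∀ {Z : C} (g : D.Lo ⟶ Z), D.q' ≫ T.B ◁ g = 0 ↔ qf ≫ g = 0 := by
    intro Z g
    have h1 := tensorLeftHomEquiv_naturality (Y := T.B) (Y' := T.Bᘁ) qf g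
    rw [show (tensorLeftHomEquiv D.A' T.B T.Bᘁ D.Lo) qf = D.q' from Equiv.apply_symm_apply _ _]
      at h1
    rw [← h1]
    constructor
    · intro h2
      apply (tensorLeftHomEquiv D.A' T.B T.Bᘁ Z).injective
      rw [h2]
      simp [tensorLeftHomEquiv]
    · intro h2
      rw [h2]
      simp [tensorLeftHomEquiv]
  obtain ⟨L', ι, κ', hL⟩ := distinguished_cocone_triangle qf
  have hA' : InSh G ((D.k + 1 : ℕ) : ℤ) ((T.Bᘁ ⊗ D.A')⟦(1 : ℤ)⟧) :=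
    (hyp.inSh_tensor (hyp.dual _ T.hB) D.hA').shift 1 _ (by push_cast; ring)
  have hq'ι : D.q' ≫ T.B ◁ ι = 0 := (hqf ι).2 (comp12 hL)
  obtain ⟨h', hh'⟩ := ye2 hL D.h ((hqf D.h).1 D.q'h)
  have hrel1 : ι ≫ (sl T.s L' - h' ≫ T.x₀ ≫ T.B ◁ (D.a ≫ ι)) = 0 := by
    rw [Preadditive.comp_sub, sl_nat, D.rel', ← Category.assoc ι h', ← hh',
      MonoidalCategory.whiskerLeft_comp]
    simp only [Category.assoc, Preadditive.add_comp]
    rw [hq'ι, comp_zero, add_zero, sub_self]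
  obtain ⟨q', hq'⟩ := ye3 hL _ hrel1
  refine ⟨⟨D.k + 1, E', (T.B ⊗ D.A)⟦(-1 : ℤ)⟧, δ, σ ≫ D.e, κ, q, L', (T.Bᘁ ⊗ D.A')⟦(1 : ℤ)⟧,
    D.a ≫ ι, h', κ', q', ?_, ?_, ?_, ?_, ?_, hA, hA', ?_, ?_, ?_, ?_, ?_, ?_, ?_, ?_, ?_, ?_⟩,
    σ, ι, ⟨rfl, hδ, hσq, rfl, hh'.symm, hq'ι⟩⟩
  · rw [← hq]
    abel
  · rw [← Category.assoc, hδ, D.δe]
  · rw [← hq']
    abel
  · rw [Category.assoc, ← hh', D.ah]
  · exact (hyp.yg (hyp.tensor _ _ T.hB T.hX)).hom_zero hA' (by push_cast; omega) _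
  · exact Yg.ext hE (hYA.mono (by norm_num)) D.hE
  · intro U hU f hf
    have h1 : f ≫ σ = 0 := D.heU U hU _ (by rw [Category.assoc, hf])
    obtain ⟨g, hg⟩ := ce2 hE f h1
    rw [hg, hU _ hYA g, zero_comp]
  · intro U hU n _
    exact hU _ hYBA _
  · intro U hU n hn
    obtain ⟨n1, hn1⟩ := D.hlift U hU n hn
    obtain ⟨n2, hn2⟩ := hlift1 U hU n1 (by rw [← Category.assoc, hn1, hn])
    exact ⟨n2, by rw [← Category.assoc, hn2, hn1]⟩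
  · exact Ul.cofib hL D.hL (Ul.of_inSh (by positivity) hA')
  · intro Y hY f hf
    have h1 : ι ≫ f = 0 := D.haY Y hY _ (by rw [← Category.assoc, hf])
    obtain ⟨g, hg⟩ := ye3 hL f h1
    rw [hg, hY.hom_zero hA' (by push_cast; omega) g, comp_zero]
  · intro l i hi
    exact hz2 (R l).H hE i (hA.deg hdeg l i (by push_cast; omega)) (D.hER l i hi)
  · intro l
    have h1 : Mono ((R l).H.map (σ⟦(0 : ℤ)⟧')) :=
      hmono2 (R l).H hE 0 (hA.deg hdeg l 0 (by push_cast; omega))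
    have h2 := D.heR l
    rw [Functor.map_comp, Functor.map_comp]
    infer_instance
  · intro l i hi
    exact hz3 (R l).H hL i (D.hLR l i hi)
      (((hyp.inSh_tensor (hyp.dual _ T.hB) D.hA').deg hdeg l) (i + 1) (by omega))
  · intro l
    have h1 : Epi ((R l).H.map (ι⟦(0 : ℤ)⟧')) :=
      hepi2 (R l).H hL 0 (((hyp.inSh_tensor (hyp.dual _ T.hB) D.hA').deg hdeg l) _ (by omega))
    have h2 := D.haR l
    rw [Functor.map_comp, Functor.map_comp]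
    infer_instance

end

end Pool.Agent.T6.H13.GP
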