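import Pool.Agent.T6.H13.GP.Hyp

/-!
# Vanishing with coefficients
-/

set_option autoImplicit false
set_option linter.unusedSectionVars false
set_option linter.unusedSimpArgs false
set_option backward.isDefEq.respectTransparency false
set_option backward.defeqAttrib.useBackward true

open CategoryTheory Limits MonoidalCategory Pretriangulated Triangulated

namespace Pool.Agent.T6.H13.GP

open Pool.Agent.Y116.MT Pool.Agent.V1178.MT Pool.Agent.T6.H13.MT

universe v u w v' u' w'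

section

variable {C : Type u} [Category.{v} C] [Preadditive C] [HasZeroObject C] [HasShift C ℤ]
  [∀ n : ℤ, (shiftFunctor C n).Additive] [Pretriangulated C] [IsTriangulated C]
  [MonoidalCategory C]
  [SymmetricCategory C] [TensorTriangulated C] [MonoidalPreadditive C] [RightRigidCategory C]
  {E : Type w} [Field E]

/-- No maps from the objects of `G` in degrees `≤ 0` to `Y ⊗ V`, for `Y` in `G`. -/
def NV (G : ObjectProperty C) (V : C) : Prop := ∀ Y, G Y → Yg G 1 (Y ⊗ V)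

lemma NV.iso {G : ObjectProperty C} {V V' : C} (h : NV G V) (e : V' ≅ V) : NV G V' :=
  fun Y hY => (h Y hY).iso (whiskerLeftIso Y e)

variable {K BB : C} {k : K ⟶ 𝟙_ C} {s : 𝟙_ C ⟶ BB} {d : BB ⟶ K⟦(1 : ℤ)⟧}

/-- The triangle `V ⊗ K ⟶ V ⟶ V ⊗ BB`. -/
lemma tri_V (hT : Triangle.mk k s d ∈ distTriang C) (V : C) :
    Triangle.mk (ze k V) (sr s V) (V ◁ d ≫ (rShift V K 1).hom) ∈ distTriang C := by
  refine isomorphic_distinguished _ (tensor_dist V hT) _ ?_
  refine Triangle.isoMk _ _ (Iso.refl _) (ρ_ V).symm (Iso.refl _) ?_ ?_ ?_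
  · simp [ze]
  · simp [sr]
  · simp

lemma Yg.fib_inj {G : ObjectProperty C} {X Y Z : C} {f : X ⟶ Y} {g : Y ⟶ Z}
    {h : Z ⟶ X⟦(1 : ℤ)⟧} (hT : Triangle.mk f g h ∈ distTriang C) (hY : Yg G 0 Y)
    (hZ : Yg G 0 Z) (hinj : ∀ A, G A → ∀ a : A ⟶ Y, a ≫ g = 0 → a = 0) : Yg G 1 X := by
  intro A hA m hm k
  have h1 : k ≫ f = 0 := by
    by_cases hm0 : m = 0
    · subst hm0
      rw [← cancel_epi ((shiftFunctorZero C ℤ).app A).inv, comp_zero]
      apply hinj A hA
      rw [Category.assoc, Category.assoc, comp12 hT, comp_zero, comp_zero]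
    · exact hY A hA m (by omega) _
  have h2 : k⟦(1 : ℤ)⟧' ≫ f⟦(1 : ℤ)⟧' = 0 := by rw [← Functor.map_comp, h1, Functor.map_zero]
  obtain ⟨l, hl⟩ := ce1 hT (k⟦(1 : ℤ)⟧') h2
  have h3 : l = 0 := hZ.hom_zero ((show InSh G m (A⟦m⟧) from ⟨A, hA, ⟨Iso.refl _⟩⟩).shift 1
    (m + 1) rfl) (by omega) l
  apply (shiftFunctor C (1 : ℤ)).map_injective
  rw [hl, h3, zero_comp, Functor.map_zero]

variable {R : Realisation C E} {G : ObjectProperty C} (h : Hyp R G)
  (hT : Triangle.mk k s d ∈ distTriang C) (hBB : G BB)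

include h hBB hT in
lemma NV.step {V : C} (hV : NV G V) : NV G (V ⊗ K) := by
  intro Y hY
  refine Yg.fib (tensor_dist Y (tri_V hT V)) (hV Y hY) ?_
  have e : Y ⊗ (V ⊗ BB) ≅ (Y ⊗ BB) ⊗ V :=
    whiskerLeftIso Y (β_ V BB) ≪≫ (α_ Y BB V).symm
  exact ((hV _ (h.tensor _ _ hY hBB)).mono (by norm_num)).iso e

include h hT hBB in
lemma NV.base (hs : s ≠ 0) {V : C} (hV : G V) : NV G (V ⊗ K) := by
  intro Y hY
  refine Yg.fib_inj (tensor_dist Y (tri_V hT V)) (h.yg (h.tensor _ _ hY hV))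
    (h.yg (h.tensor _ _ hY (h.tensor _ _ hV hBB))) ?_
  intro A hA a ha
  apply h.sr_cancel hBB hs hA (h.tensor _ _ hY hV)
  rw [sr_tensor, ← Category.assoc, ha, zero_comp]

include h hT hBB in
lemma NV.pw (hs : s ≠ 0) {V : C} (hV : G V) (n : ℕ) : NV G (pw V K (n + 1)) := by
  induction n with
  | zero => exact NV.base h hT hBB hs hV
  | succ n ih => exact NV.step h hT hBB ih

include h hT hBB in
lemma NV.pw' {V : C} (hV : NV G V) (n : ℕ) : NV G (Pool.Agent.Y116.MT.pw V K n) := by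
  induction n with
  | zero => exact hV
  | succ n ih => exact NV.step h hT hBB ih

end

end Pool.Agent.T6.H13.GP
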