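import Pool.Agent.T6.H13.GP.Cls

/-!
# Nilpotence of a morphism `K ⟶ 𝟙` from an object in odd degree
-/

set_option autoImplicit false
set_option linter.unusedSectionVars false
set_option linter.unusedSimpArgs false
set_option backward.isDefEq.respectTransparency false
set_option backward.defeqAttrib.useBackward true

open CategoryTheory Limits MonoidalCategory Pretriangulated Triangulated

namespace Pool.Agent.T6.H13.GP

open Pool.Agent.Y116.MT Pool.Agent.V1178.MT Pool.Agent.T6.H13.MT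

universe v u w v' u' w'

section

variable {C : Type u} [Category.{v} C] [MonoidalCategory C]

/-- The map `V ⊗ K ⟶ V`. -/
def ze {K : C} (k : K ⟶ 𝟙_ C) (V : C) : V ⊗ K ⟶ V := V ◁ k ≫ (ρ_ V).hom

lemma ze_nat {K : C} (k : K ⟶ 𝟙_ C) {V V' : C} (f : V ⟶ V') :
    ze k V ≫ f = f ▷ K ≫ ze k V' := by
  simp only [ze, Category.assoc]
  rw [← rightUnitor_naturality, whisker_exchange_assoc]

lemma ze_nat_assoc {K : C} (k : K ⟶ 𝟙_ C) {V V' Z : C} (f : V ⟶ V') (g : V' ⟶ Z) :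
    ze k V ≫ f ≫ g = f ▷ K ≫ ze k V' ≫ g := by
  rw [← Category.assoc, ze_nat, Category.assoc]

lemma ze_tensor {K : C} (k : K ⟶ 𝟙_ C) (L V : C) :
    L ◁ ze k V = (α_ L V K).inv ≫ ze k (L ⊗ V) := by
  simp only [ze, MonoidalCategory.whiskerLeft_comp]
  simp

/-- The iterated map `V ⊗ K ⊗ ⋯ ⊗ K ⟶ V`. -/
def kp {K : C} (k : K ⟶ 𝟙_ C) (V : C) : ∀ n : ℕ, pw V K n ⟶ V
  | 0 => 𝟙 _
  | n + 1 => ze k (pw V K n) ≫ kp k V n

/-- The powers with first factor `V`. -/
def pwI (K V : C) : ∀ n : ℕ, pw V K n ≅ V ⊗ pw (𝟙_ C) K n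
  | 0 => (ρ_ V).symm
  | n + 1 => whiskerRightIso (pwI K V n) K ≪≫ α_ V (pw (𝟙_ C) K n) K

lemma kp_pwI {K : C} (k : K ⟶ 𝟙_ C) (V : C) (n : ℕ) :
    (pwI K V n).hom ≫ V ◁ kp k (𝟙_ C) n ≫ (ρ_ V).hom = kp k V n := by
  induction n with
  | zero => simp [pwI, kp]
  | succ n ih =>
    simp only [pwI, kp, Iso.trans_hom, whiskerRightIso_hom, Category.assoc,
      MonoidalCategory.whiskerLeft_comp]
    rw [← ih, ze_tensor, Category.assoc, Iso.hom_inv_id_assoc, ← ze_nat_assoc]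

end

section

variable {C : Type u} [Category.{v} C] [MonoidalCategory C] [SymmetricCategory C] [Preadditive C]
  [MonoidalPreadditive C]

lemma exch_ze {K : C} (k : K ⟶ 𝟙_ C) (W : C) :
    (exch W K K).hom ≫ ze k (W ⊗ K) ≫ ze k W = ze k (W ⊗ K) ≫ ze k W := by
  have h1 : (exch W K K).hom ≫ ze k (W ⊗ K) = ze k W ▷ K := by
    have h2 := exch_natural (W := W) (Z := K) k
    have h3 : (exch W (𝟙_ C) K).hom ≫ (ρ_ (W ⊗ K)).hom = (ρ_ W).hom ▷ K := by
      simp [exch]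
    have h4 := exch_natural_left (C := C) W K k
    simp only [ze]
    rw [← Category.assoc, ← h4, Category.assoc, h3, comp_whiskerRight]
  rw [← Category.assoc, h1, ← ze_nat]

lemma mv_kp {K : C} (k : K ⟶ 𝟙_ C) (V : C) (n : ℕ) : ∀ i : Fin (n + 1),
    mv V K n i ≫ kp k V (n + 1) = kp k V (n + 1) := by
  induction n with
  | zero =>
    intro i
    simp [mv]
  | succ n ih =>
    intro i
    refine Fin.lastCases ?_ (fun j => ?_) i
    · simp
    · rw [mv_castSucc]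
      have h1 : kp k V (n + 1 + 1) = ze k (pw V K n ⊗ K) ≫ ze k (pw V K n) ≫ kp k V n := rfl
      have h2 : kp k V (n + 1 + 1) = ze k (pw V K (n + 1)) ≫ kp k V (n + 1) := rfl
      have h3 : (exch (pw V K n) K K).hom ≫ kp k V (n + 1 + 1) = kp k V (n + 1 + 1) := by
        rw [h1]
        have := exch_ze k (pw V K n)
        rw [← Category.assoc (ze k _), ← Category.assoc, this]
      rw [Category.assoc, h3, h2, ← Category.assoc, ← ze_nat, Category.assoc, ih]

lemma al_kp {K : C} (k : K ⟶ 𝟙_ C) (V : C) (n : ℕ) :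
    al 1 V K n ≫ kp k V n = (n.factorial : ℤ) • kp k V n := by
  induction n with
  | zero => simp [al, kp]
  | succ n ih =>
    have h1 : (al 1 V K n ▷ K) ≫ kp k V (n + 1) = (n.factorial : ℤ) • kp k V (n + 1) := by
      have h3 : kp k V (n + 1) = ze k (pw V K n) ≫ kp k V n := rfl
      rw [h3, ← Category.assoc, ← ze_nat, Category.assoc, ih, Preadditive.comp_zsmul]
    simp only [al, Preadditive.sum_comp, Preadditive.zsmul_comp, Category.assoc, h1,
      Preadditive.comp_zsmul, mv_kp, one_pow, one_zsmul]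
    rw [Finset.sum_const, Finset.card_univ, Fintype.card_fin, ← natCast_zsmul, smul_smul,
        Nat.factorial_succ]
    push_cast
    rfl

end

section

variable {C : Type u} [Category.{v} C] [Preadditive C] [HasZeroObject C] [HasShift C ℤ]
  [∀ n : ℤ, (shiftFunctor C n).Additive] [Pretriangulated C] [MonoidalCategory C]
  [SymmetricCategory C] [TensorTriangulated C] [MonoidalPreadditive C] [RightRigidCategory C]
  {E : Type w} [Field E] {R : Realisation C E}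

/-- A conservative realisation detects isomorphisms. -/
lemma isIso_of_R (hc : Conservative R) {X Y : C} (f : X ⟶ Y)
    (hf : ∀ i : ℤ, IsIso (R.H.map (f⟦i⟧'))) : IsIso f := by
  obtain ⟨Z, g, h, hT⟩ := distinguished_cocone_triangle f
  exact isIso1_of_isZero3 hT (hc _ fun i => hz3_of_epi_mono R.H hT i
    (by have := hf i; infer_instance) (by have := hf (i + 1); infer_instance))

lemma deg_pw {X Z : C} {a : ℤ} (hX : R.Deg X 0) (hZ : R.Deg Z a) (n : ℕ) :
    R.Deg (pw X Z n) (n * a) := by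
  induction n with
  | zero => simpa using hX
  | succ n ih =>
    have := ih.tensor hZ
    rwa [show (n : ℤ) * a + a = ((n + 1 : ℕ) : ℤ) * a by push_cast; ring] at this

lemma H_zsmul {X Y : C} (f : X ⟶ Y) (n : ℤ) : R.H.map (n • f) = n • R.H.map f :=
  R.H.map_zsmul

lemma isIso_fact_sub [CharZero E] (hc : Conservative R) {Z : C} (hZ : R.Deg Z 0) :
    ∃ n : ℕ, IsIso ((n.factorial : ℤ) • 𝟙 _ - al (-1) (𝟙_ C) Z n) := by
  refine ⟨Module.finrank E (R.H.obj Z) + 1, ?_⟩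
  set n := Module.finrank E (R.H.obj Z) + 1 with hn
  have h0 : ∀ m, R.Deg (pw (𝟙_ C) Z m) 0 := fun m => by simpa using deg_pw deg_unit hZ m
  have hA : R.H.map (al (-1) (𝟙_ C) Z n) = 0 := by
    have h1 := kap_iso h0 n
    rw [← cancel_epi (kap R.H (𝟙_ C) Z n), ← al_lax, al_neg_one,
      alt_vec_zero _ _ _ (Nat.lt_succ_self _), zero_comp, comp_zero]
  apply isIso_of_R hc
  intro i
  by_cases hi : i = 0
  · subst hi
    have h1 : R.H.map ((al (-1) (𝟙_ C) Z n)⟦(0 : ℤ)⟧') = 0 := by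
      rw [shift_zero_map, hA, zero_comp, comp_zero]
    have h2 : R.H.map (((n.factorial : ℤ) • 𝟙 _ - al (-1) (𝟙_ C) Z n)⟦(0 : ℤ)⟧') =
        (n.factorial : ℤ) • 𝟙 _ := by
      rw [Functor.map_sub, Functor.map_sub, h1, sub_zero, Functor.map_zsmul, Functor.map_zsmul,
        CategoryTheory.Functor.map_id, CategoryTheory.Functor.map_id]
    rw [h2]
    have hne : ((n.factorial : ℕ) : E) ≠ 0 := by exact_mod_cast Nat.factorial_ne_zero n
    refine ⟨((n.factorial : E)⁻¹) • 𝟙 _, ?_, ?_⟩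
    · rw [Preadditive.zsmul_comp, Category.id_comp, ← Int.cast_smul_eq_zsmul E, smul_smul]
      rw [Int.cast_natCast, mul_inv_cancel₀ hne, one_smul]
    · rw [Preadditive.comp_zsmul, Category.comp_id, ← Int.cast_smul_eq_zsmul E, smul_smul]
      rw [Int.cast_natCast, mul_inv_cancel₀ hne, one_smul]
  · have h1 := h0 n i hi
    exact isIso_of_source_target_iso_zero _ h1.isoZero h1.isoZero

lemma isIso_conj {X Y : C} (a : X ⟶ X) (b : Y ⟶ Y) (e : X ⟶ Y) [IsIso e] (h : a ≫ e = e ≫ b)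
    (hb : IsIso b) : IsIso a := by
  have : a = e ≫ b ≫ inv e := by rw [← Category.assoc, ← h, Category.assoc, IsIso.hom_inv_id,
    Category.comp_id]
  rw [this]
  infer_instance

/-- If the iterated map vanishes for `V = 𝟙`, it does for all `V`, and for larger exponents. -/
lemma kp_all {K : C} (k : K ⟶ 𝟙_ C) {n : ℕ} (h3 : kp k (𝟙_ C) n = 0) (m : ℕ) (hm : n ≤ m)
    (V : C) : kp k V m = 0 := by
  have h4 : ∀ V : C, kp k V n = 0 := fun V => by
    rw [← kp_pwI, h3]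
    have : V ◁ (0 : pw (𝟙_ C) K n ⟶ 𝟙_ C) = 0 := (tensorLeft V).map_zero _ _
    rw [this, zero_comp, comp_zero]
  induction m, hm using Nat.le_induction with
  | base => exact h4 V
  | succ m _ ih => rw [kp, ih, comp_zero]

lemma kp_comp {A K : C} (a : A ⟶ K) (k : K ⟶ 𝟙_ C) (V : C) (n : ℕ) :
    kp (a ≫ k) V n = pm (𝟙 V) a n ≫ kp k V n := by
  induction n with
  | zero => simp [kp, pm]
  | succ n ih =>
    have h1 : pm (𝟙 V) a (n + 1) = pw V A n ◁ a ≫ pm (𝟙 V) a n ▷ K := by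
      change pm (𝟙 V) a n ⊗ₘ a = _
      rw [MonoidalCategory.tensorHom_def']
    rw [h1, kp, kp, ih, Category.assoc, ← Category.assoc (pm (𝟙 V) a n ▷ K), ← ze_nat]
    simp only [ze, MonoidalCategory.whiskerLeft_comp, Category.assoc]

/-- The iterated map vanishes. -/
theorem kp_zero [CharZero E] (hc : Conservative R) {K : C} (hK : R.Deg (K⟦(1 : ℤ)⟧) 0)
    (k : K ⟶ 𝟙_ C) : ∃ n₀ : ℕ, ∀ n, n₀ ≤ n → ∀ V : C, kp k V n = 0 := by
  obtain ⟨n, hn⟩ := isIso_fact_sub hc hK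
  set Z := K⟦(1 : ℤ)⟧
  set u : C := (𝟙_ C)⟦(-1 : ℤ)⟧
  have h1 : IsIso ((n.factorial : ℤ) • 𝟙 _ - al 1 (𝟙_ C ⊗ 𝟙_ C) (Z ⊗ u) n) := by
    have := zp_isIso (𝟙_ C) (𝟙_ C) Z u n
    refine isIso_conj _ (((n.factorial : ℤ) • 𝟙 _ - al (-1) (𝟙_ C) Z n) ▷ (pw (𝟙_ C) u n))
      (zp (𝟙_ C) (𝟙_ C) Z u n) ?_ inferInstance
    have h2 := al_zp (-1) 1 (by norm_num) (𝟙_ C) (𝟙_ C) Z u braid_shift_neg_one n
    have h3 : ((n.factorial : ℤ) • 𝟙 _ - al (-1) (𝟙_ C) Z n) ▷ (pw (𝟙_ C) u n) =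
        (n.factorial : ℤ) • 𝟙 _ - al (-1) (𝟙_ C) Z n ▷ (pw (𝟙_ C) u n) := by
      have := (tensorRight (pw (𝟙_ C) u n)).map_sub (f := (n.factorial : ℤ) • 𝟙 _)
        (g := al (-1) (𝟙_ C) Z n)
      refine this.trans ?_
      congr 1
      exact ((tensorRight (pw (𝟙_ C) u n)).map_zsmul).trans (by simp)
    rw [h3, Preadditive.sub_comp, Preadditive.comp_sub, h2, Preadditive.zsmul_comp,
      Preadditive.comp_zsmul, Category.id_comp, Category.comp_id, one_mul]
  have h2 : IsIso ((n.factorial : ℤ) • 𝟙 _ - al 1 (𝟙_ C) K n) := by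
    let e1 : 𝟙_ C ≅ 𝟙_ C ⊗ 𝟙_ C := (λ_ (𝟙_ C)).symm
    let e2 : K ≅ Z ⊗ u := (shiftUnitIso Z (-1) ≪≫ (shiftShiftNeg K 1)).symm
    have := pm_isIso e1.hom e2.hom n
    refine isIso_conj _ _ (pm e1.hom e2.hom n) ?_ h1
    rw [Preadditive.sub_comp, Preadditive.comp_sub, al_pm, Preadditive.zsmul_comp,
      Preadditive.comp_zsmul, Category.id_comp, Category.comp_id]
  have h3 : kp k (𝟙_ C) n = 0 := by
    rw [← cancel_epi ((n.factorial : ℤ) • 𝟙 _ - al 1 (𝟙_ C) K n), Preadditive.sub_comp, al_kp,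
      Preadditive.zsmul_comp, Category.id_comp, sub_self, comp_zero]
  exact ⟨n, fun m hm V => kp_all k h3 m hm V⟩

end

end Pool.Agent.T6.H13.GP
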