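import Pool.Agent.T6.H13.GP.Abel

/-!
# Ordering the cells of the objects generated by an admissible class
-/

set_option autoImplicit false
set_option linter.unusedSectionVars false
set_option linter.unusedSimpArgs false
set_option backward.isDefEq.respectTransparency false
set_option backward.defeqAttrib.useBackward true

open CategoryTheory Limits MonoidalCategory Pretriangulated Triangulated
open scoped ZeroObject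

namespace Pool.Agent.T6.H13.GP

open Pool.Agent.Y116.MT Pool.Agent.V1178.MT Pool.Agent.T6.H13.MT

universe v u w v' u' w'

section

variable {C : Type u} [Category.{v} C] [Preadditive C] [HasZeroObject C] [HasShift C ℤ]
  [∀ n : ℤ, (shiftFunctor C n).Additive] [Pretriangulated C]

/-- Shifting a triangle. -/
lemma shift_tri {X Y Z : C} {f : X ⟶ Y} {g : Y ⟶ Z} {h : Z ⟶ X⟦(1 : ℤ)⟧}
    (hT : Triangle.mk f g h ∈ distTriang C) (n : ℤ) :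
    ∃ h' : Z⟦n⟧ ⟶ (X⟦n⟧)⟦(1 : ℤ)⟧, Triangle.mk (f⟦n⟧') (g⟦n⟧') h' ∈ distTriang C := by
  have h1 : Triangle.mk (n.negOnePow • f⟦n⟧') (n.negOnePow • g⟦n⟧')
      (n.negOnePow • h⟦n⟧' ≫ (shiftFunctorComm C 1 n).hom.app X) ∈ distTriang C :=
    Triangle.shift_distinguished _ hT n
  rcases Int.units_eq_one_or n.negOnePow with e | e
  · rw [e, one_smul, one_smul] at h1
    exact ⟨_, h1⟩
  · rw [e, Units.neg_smul, Units.neg_smul, one_smul, one_smul] at h1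
    have h2 := signD h1
    rw [neg_neg, neg_neg] at h2
    exact ⟨_, h2⟩

/-- Transporting a triangle along isomorphisms. -/
lemma tri_iso {X Y Z : C} {f : X ⟶ Y} {g : Y ⟶ Z} {h : Z ⟶ X⟦(1 : ℤ)⟧}
    (hT : Triangle.mk f g h ∈ distTriang C) {Y' : C} (e : Y ≅ Y') :
    Triangle.mk (f ≫ e.hom) (e.inv ≫ g) h ∈ distTriang C := by
  refine isomorphic_distinguished _ hT _ ?_
  exact Triangle.isoMk _ _ (Iso.refl _) e.symm (Iso.refl _)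

lemma tri_iso1 {X Y Z : C} {f : X ⟶ Y} {g : Y ⟶ Z} {h : Z ⟶ X⟦(1 : ℤ)⟧}
    (hT : Triangle.mk f g h ∈ distTriang C) {X' : C} (e : X' ≅ X) :
    Triangle.mk (e.hom ≫ f) g (h ≫ e.inv⟦(1 : ℤ)⟧') ∈ distTriang C := by
  refine isomorphic_distinguished _ hT _ ?_
  exact Triangle.isoMk _ _ e (Iso.refl _) (Iso.refl _) (by simp) (by simp)
    (by simp [← Functor.map_comp])

lemma tri_iso3 {X Y Z : C} {f : X ⟶ Y} {g : Y ⟶ Z} {h : Z ⟶ X⟦(1 : ℤ)⟧}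
    (hT : Triangle.mk f g h ∈ distTriang C) {Z' : C} (e : Z ≅ Z') :
    Triangle.mk f (g ≫ e.hom) (e.inv ≫ h) ∈ distTriang C := by
  refine isomorphic_distinguished _ hT _ ?_
  exact Triangle.isoMk _ _ (Iso.refl _) (Iso.refl _) e.symm

/-- Unshifting a triangle. -/
lemma unshift_tri {X Y Z : C} {r : X⟦(1 : ℤ)⟧ ⟶ Y⟦(1 : ℤ)⟧} {s : Y⟦(1 : ℤ)⟧ ⟶ Z}
    {z : Z ⟶ X⟦(1 : ℤ)⟧⟦(1 : ℤ)⟧} (hT : Triangle.mk r s z ∈ distTriang C) :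
    ∃ (W : C) (f : X ⟶ Y) (g : Y ⟶ W) (h : W ⟶ X⟦(1 : ℤ)⟧),
      Triangle.mk f g h ∈ distTriang C ∧ Nonempty (W⟦(1 : ℤ)⟧ ≅ Z) := by
  obtain ⟨f, hf⟩ := (shiftFunctor C (1 : ℤ)).map_surjective r
  obtain ⟨W, g, h, hW⟩ := distinguished_cocone_triangle f
  obtain ⟨h', hS⟩ := shift_tri hW 1
  refine ⟨W, f, g, h, hW, ⟨?_⟩⟩
  exact Triangle.π₃.mapIso (isoTriangleOfIso₁₂ _ _ hS hT (Iso.refl _) (Iso.refl _)
    (by simp [hf]))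

end

section

variable {C : Type u} [Category.{v} C] [Preadditive C] [HasZeroObject C] [HasShift C ℤ]
  [∀ n : ℤ, (shiftFunctor C n).Additive] [Pretriangulated C]

/-- An admissible class of objects. -/
structure Adm (𝒩 : ObjectProperty C) : Prop where
  neg {N N' A B : C} (h : 𝒩 N) (h' : 𝒩 N') {m n : ℤ} (eA : A ≅ N⟦m⟧) (eB : B ≅ N'⟦n⟧)
    (hmn : n < m) (f : A ⟶ B) : f = 0
  adm {N N' : C} (h : 𝒩 N) (h' : 𝒩 N') (f : N ⟶ N') :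
    ∃ (K I Q : C) (κ : K ⟶ N) (ν : N ⟶ I) (d : I ⟶ K⟦(1 : ℤ)⟧) (μ : I ⟶ N') (γ : N' ⟶ Q)
      (d' : Q ⟶ I⟦(1 : ℤ)⟧), 𝒩 K ∧ 𝒩 Q ∧
      Triangle.mk κ ν d ∈ distTriang C ∧ Triangle.mk μ γ d' ∈ distTriang C ∧ ν ≫ μ = f

/-- The objects with an ordered filtration by shifts (by at most `n`) of the objects of `𝒩`. -/
inductive Fi (𝒩 : ObjectProperty C) : ℤ → C → Prop
  | zero {n : ℤ} {M : C} (h : IsZero M) : Fi 𝒩 n M
  | cell {n i : ℤ} {A M M' : C} {f : A ⟶ M} {g : M ⟶ M'} {h : M' ⟶ A⟦(1 : ℤ)⟧}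
      (hA : InSh 𝒩 i A) (hi : i ≤ n) (hT : Triangle.mk f g h ∈ distTriang C) (h' : Fi 𝒩 i M') :
      Fi 𝒩 n M

variable {𝒩 : ObjectProperty C}

lemma Fi.mono {n n' : ℤ} {M : C} (h : Fi 𝒩 n M) (hn : n ≤ n') : Fi 𝒩 n' M := by
  cases h with
  | zero h => exact Fi.zero h
  | cell hA hi hT h' => exact Fi.cell hA (hi.trans hn) hT h'

lemma Fi.iso {n : ℤ} {M M₁ : C} (h : Fi 𝒩 n M) (e : M ≅ M₁) : Fi 𝒩 n M₁ := by
  cases h with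
  | zero h => exact Fi.zero (h.of_iso e.symm)
  | cell hA hi hT h' => exact Fi.cell hA hi (tri_iso hT e) h'

lemma Fi.of_inSh {n : ℤ} {A : C} (h : InSh 𝒩 n A) : Fi 𝒩 n A :=
  Fi.cell h le_rfl (contractible_distinguished A) (Fi.zero (isZero_zero C))

lemma Adm.cell (ha : Adm 𝒩) {i : ℤ} {A B : C} (hA : InSh 𝒩 i A) (hB : InSh 𝒩 i B) (δ : A ⟶ B) :
    ∃ (K I Q : C) (κ : K ⟶ A) (ν : A ⟶ I) (d : I ⟶ K⟦(1 : ℤ)⟧) (μ : I ⟶ B) (γ : B ⟶ Q)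
      (d' : Q ⟶ I⟦(1 : ℤ)⟧), InSh 𝒩 i K ∧ InSh 𝒩 i Q ∧
      Triangle.mk κ ν d ∈ distTriang C ∧ Triangle.mk μ γ d' ∈ distTriang C ∧ ν ≫ μ = δ := by
  obtain ⟨N, hN, ⟨eA⟩⟩ := hA
  obtain ⟨N', hN', ⟨eB⟩⟩ := hB
  obtain ⟨f, hf⟩ := (shiftFunctor C i).map_surjective (eA.inv ≫ δ ≫ eB.hom)
  obtain ⟨K, I, Q, κ, ν, d, μ, γ, d', hK, hQ, h1, h2, h3⟩ := ha.adm hN hN' f
  obtain ⟨e, h1'⟩ := shift_tri h1 i
  obtain ⟨e', h2'⟩ := shift_tri h2 i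
  refine ⟨K⟦i⟧, I⟦i⟧, Q⟦i⟧, κ⟦i⟧' ≫ eA.inv, eA.hom ≫ ν⟦i⟧', e, μ⟦i⟧' ≫ eB.inv, eB.hom ≫ γ⟦i⟧',
    e', ⟨K, hK, ⟨Iso.refl _⟩⟩, ⟨Q, hQ, ⟨Iso.refl _⟩⟩, tri_iso h1' eA.symm, tri_iso h2' eB.symm, ?_⟩
  have h4 : ν⟦i⟧' ≫ μ⟦i⟧' = eA.inv ≫ δ ≫ eB.hom := by rw [← Functor.map_comp, h3, hf]
  have h5 : (eA.hom ≫ ν⟦i⟧') ≫ μ⟦i⟧' ≫ eB.inv = eA.hom ≫ (ν⟦i⟧' ≫ μ⟦i⟧') ≫ eB.inv := by
    simp only [Category.assoc]
  rw [h5, h4]
  simp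

/-- Swapping two adjacent cells. -/
lemma Adm.swap2 [IsTriangulated C] (ha : Adm 𝒩) {i j : ℤ} (hij : j < i) {A B E : C} {b : B ⟶ E}
    {e : E ⟶ A} {δ : A ⟶ B⟦(1 : ℤ)⟧} (hT : Triangle.mk b e δ ∈ distTriang C) (hA : InSh 𝒩 i A)
    (hB : InSh 𝒩 j B) : ∃ (K Q : C) (k : K ⟶ E) (q : E ⟶ Q) (z : Q ⟶ K⟦(1 : ℤ)⟧),
      Triangle.mk k q z ∈ distTriang C ∧ InSh 𝒩 i K ∧ InSh 𝒩 j Q := by
  obtain ⟨K, I, Q, κ, ν, d, μ, γ, d', hK, hQ, h1, h2, h3⟩ : ∃ (K I Q : C) (κ : K ⟶ A)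
      (ν : A ⟶ I) (d : I ⟶ K⟦(1 : ℤ)⟧) (μ : I ⟶ B⟦(1 : ℤ)⟧) (γ : B⟦(1 : ℤ)⟧ ⟶ Q)
      (d' : Q ⟶ I⟦(1 : ℤ)⟧), InSh 𝒩 i K ∧ InSh 𝒩 (j + 1) Q ∧
      Triangle.mk κ ν d ∈ distTriang C ∧ Triangle.mk μ γ d' ∈ distTriang C ∧ ν ≫ μ = δ := by
    by_cases hi : j + 1 = i
    · obtain ⟨K, I, Q, κ, ν, d, μ, γ, d', hK, hQ, h⟩ := ha.cell hA (hB.shift 1 i hi) δ
      exact ⟨K, I, Q, κ, ν, d, μ, γ, d', hK, by rw [hi]; exact hQ, h⟩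
    · have h0 : δ = 0 := by
        obtain ⟨N, hN, ⟨eA⟩⟩ := hA
        obtain ⟨N', hN', ⟨eB⟩⟩ := hB.shift 1 (j + 1) rfl
        exact ha.neg hN hN' eA eB (by omega) δ
      exact ⟨A, 0, B⟦(1 : ℤ)⟧, 𝟙 A, 0, 0, 0, 𝟙 _, 0, hA, hB.shift 1 (j + 1) rfl,
        contractible_distinguished A, contractible_distinguished₁ _, by rw [h0, zero_comp]⟩
  have O := someOctahedron h3 (rotD h1) h2 (rotD (rotD hT))
  obtain ⟨W, f, g, h, hW, ⟨eW⟩⟩ := unshift_tri O.mem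
  refine ⟨K, W, f, g, h, hW, hK, ?_⟩
  exact ((hQ.iso eW).shift (-1) j (by ring)).iso (shiftShiftNeg W (1 : ℤ)).symm

/-- The cell can be inserted at the right place. -/
lemma Fi.swap [IsTriangulated C] (ha : Adm 𝒩) {n : ℤ} {M' : C} (h' : Fi 𝒩 n M') :
    ∀ {j : ℤ} {A M : C} {f : A ⟶ M} {g : M ⟶ M'} {h : M' ⟶ A⟦(1 : ℤ)⟧}, InSh 𝒩 j A →
      Triangle.mk f g h ∈ distTriang C → Fi 𝒩 (max n j) M := by
  induction h' with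
  | zero h' =>
    intro j A M f g h hA hT
    exact Fi.cell hA (le_max_right _ _) hT (Fi.zero h')
  | @cell n i A₁ M' M'' f₁ g₁ h₁ hA₁ hi hT₁ h'' ih =>
    intro j A M f g h hA hT
    by_cases hij : i ≤ j
    · exact Fi.cell hA (le_max_right _ _) hT (Fi.cell hA₁ hij hT₁ h'')
    · push Not at hij
      obtain ⟨E, a, p, q, hE, r, s, z, hO⟩ := compose_tri hT hT₁
      obtain ⟨A₁', b, e, δ, hE', ⟨eA⟩⟩ := unshift_tri hO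
      have hA₁' : InSh 𝒩 i A₁' := (((hA₁.shift 1 (i + 1) rfl).iso eA).shift (-1) i (by ring)).iso
        (shiftShiftNeg A₁' (1 : ℤ)).symm
      obtain ⟨K, Q, k, t, y, hK, hKi, hQj⟩ := ha.swap2 hij hE' hA₁' hA
      obtain ⟨M₁, m, l, hM₁⟩ := distinguished_cocone_triangle (k ≫ a)
      have O := someOctahedron (rfl : k ≫ a = k ≫ a) hK hE hM₁
      have h3 := ih hQj O.mem
      rw [max_eq_left hij.le] at h3
      exact Fi.cell hKi (hi.trans (le_max_left _ _)) hM₁ h3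

/-- Extensions. -/
lemma Fi.ext [IsTriangulated C] (ha : Adm 𝒩) {n : ℤ} {A : C} (hA : Fi 𝒩 n A) :
    ∀ {m : ℤ} {M B : C} {f : A ⟶ M} {g : M ⟶ B} {h : B ⟶ A⟦(1 : ℤ)⟧}, Fi 𝒩 m B →
      Triangle.mk f g h ∈ distTriang C → ∃ k, Fi 𝒩 k M := by
  induction hA with
  | zero h' =>
    intro m M B f g h hB hT
    have := isIso2_of_isZero1 hT h'
    exact ⟨m, hB.iso (asIso g).symm⟩
  | @cell n i A₁ A A' f₁ g₁ h₁ hA₁ hi hT₁ h'' ih =>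
    intro m M B f g h hB hT
    obtain ⟨M₁, p, l, hM₁⟩ := distinguished_cocone_triangle (f₁ ≫ f)
    have O := someOctahedron (rfl : f₁ ≫ f = f₁ ≫ f) hT₁ hT hM₁
    obtain ⟨k, hk⟩ := ih hB O.mem
    exact ⟨_, hk.swap ha hA₁ hM₁⟩

lemma Fi.shift {n : ℤ} {M : C} (h : Fi 𝒩 n M) (a : ℤ) : Fi 𝒩 (n + a) (M⟦a⟧) := by
  induction h with
  | zero h => exact Fi.zero ((shiftFunctor C a).map_isZero h)
  | cell hA hi hT h' ih =>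
    obtain ⟨h'', hT'⟩ := shift_tri hT a
    exact Fi.cell (hA.shift a _ rfl) (by omega) hT' ih

variable (𝒩) in
/-- The retracts of the objects with a filtration. -/
def Re (M : C) : Prop := ∃ (X : C) (n : ℤ) (i : M ⟶ X) (r : X ⟶ M), Fi 𝒩 n X ∧ i ≫ r = 𝟙 M

lemma Re.shift {M : C} (h : Re 𝒩 M) (a : ℤ) : Re 𝒩 (M⟦a⟧) := by
  obtain ⟨X, n, i, r, hX, hir⟩ := h
  exact ⟨X⟦a⟧, n + a, i⟦a⟧', r⟦a⟧', hX.shift a, by
    rw [← Functor.map_comp, hir, CategoryTheory.Functor.map_id]⟩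

lemma Re.cone [IsTriangulated C] (ha : Adm 𝒩) {M M' Z : C} {f : M ⟶ M'} {g : M' ⟶ Z}
    {h : Z ⟶ M⟦(1 : ℤ)⟧} (hT : Triangle.mk f g h ∈ distTriang C) (hM : Re 𝒩 M)
    (hM' : Re 𝒩 M') : Re 𝒩 Z := by
  obtain ⟨X, n, i, r, hX, hir⟩ := hM
  obtain ⟨X', n', i', r', hX', hir'⟩ := hM'
  obtain ⟨W, p, d, hW⟩ := distinguished_cocone_triangle (r ≫ f ≫ i')
  obtain ⟨k, hk⟩ := hX'.ext ha (hX.shift 1) (rotD hW)
  obtain ⟨z, hz1, hz2⟩ := complete_distinguished_triangle_morphism _ _ hT hW i i' (by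
    change f ≫ i' = i ≫ r ≫ f ≫ i'
    rw [← Category.assoc i, hir, Category.id_comp])
  obtain ⟨w, hw1, hw2⟩ := complete_distinguished_triangle_morphism _ _ hW hT r r' (by
    change (r ≫ f ≫ i') ≫ r' = r ≫ f
    simp only [Category.assoc]
    rw [hir', Category.comp_id])
  dsimp at hz1 hz2 hw1 hw2
  have h1 : IsIso (z ≫ w) := by
    let φ : Triangle.mk f g h ⟶ Triangle.mk f g h :=
      { hom₁ := 𝟙 _
        hom₂ := 𝟙 _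
        hom₃ := z ≫ w
        comm₁ := by simp
        comm₂ := by
          change g ≫ z ≫ w = 𝟙 _ ≫ g
          rw [← Category.assoc, hz1, Category.assoc, hw1, ← Category.assoc, hir']
        comm₃ := by
          change h ≫ (𝟙 _)⟦(1 : ℤ)⟧' = (z ≫ w) ≫ h
          rw [Category.assoc, ← hw2, ← Category.assoc, ← hz2, Category.assoc, ← Functor.map_comp,
            hir] }
    exact isIso₃_of_isIso₁₂ φ hT hT (inferInstanceAs (IsIso (𝟙 M)))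
      (inferInstanceAs (IsIso (𝟙 M')))
  exact ⟨W, k, z, w ≫ inv (z ≫ w), hk, by rw [← Category.assoc, IsIso.hom_inv_id]⟩

lemma Re.retract {X Y : C} (i : Y ⟶ X) (r : X ⟶ Y) (hir : i ≫ r = 𝟙 Y) (h : Re 𝒩 X) :
    Re 𝒩 Y := by
  obtain ⟨Z, n, j, s, hZ, hjs⟩ := h
  refine ⟨Z, n, i ≫ j, s ≫ r, hZ, ?_⟩
  have : (i ≫ j) ≫ s ≫ r = i ≫ (j ≫ s) ≫ r := by simp only [Category.assoc]
  rw [this, hjs, Category.id_comp, hir]

/-- All objects are retracts of objects with a filtration. -/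
theorem Re.all [IsTriangulated C] (ha : Adm 𝒩) {G : ObjectProperty C} (hG : ThickGenerates G)
    (hGN : ∀ X, G X → 𝒩 X) (X : C) : Re 𝒩 X := by
  refine hG (Re 𝒩) (fun X hX => ?_) (fun X n hX => hX.shift n) (fun T hT h1 h2 => ?_)
    (fun X Y i r hir hX => hX.retract i r hir) X
  · exact ⟨X, 0, 𝟙 X, 𝟙 X, Fi.of_inSh (InSh.of (hGN X hX)), Category.comp_id _⟩
  · exact Re.cone ha (f := T.mor₁) (g := T.mor₂) (h := T.mor₃) hT h1 h2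

end

end Pool.Agent.T6.H13.GP
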