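import Pool.Agent.T6.H13.GP.Lev

/-!
# Morphisms between the towers
-/

set_option autoImplicit false
set_option linter.unusedSectionVars false
set_option linter.unusedSimpArgs false
set_option backward.isDefEq.respectTransparency false
set_option backward.defeqAttrib.useBackward true

open CategoryTheory Limits MonoidalCategory Pretriangulated Triangulated

namespace Pool.Agent.T6.H13.GP

open Pool.Agent.Y116.MT Pool.Agent.V1178.MT Pool.Agent.T6.H13.MT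

universe v u w v' u' w'

section

variable {C : Type u} [Category.{v} C] [Preadditive C] [HasZeroObject C] [HasShift C ℤ]
  [∀ n : ℤ, (shiftFunctor C n).Additive] [Pretriangulated C] [IsTriangulated C]
  [MonoidalCategory C]
  [SymmetricCategory C] [TensorTriangulated C] [MonoidalPreadditive C] [RightRigidCategory C]
  {G : ObjectProperty C}
  {Λ : Type*} {E : Λ → Type w} [∀ l, Field (E l)] {R : ∀ l, Realisation C (E l)}
  {T : Dat G}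

lemma wr_comp_zero {X Y Z : C} {f : X ⟶ Y} {g : Y ⟶ Z} (h : f ≫ g = 0) (V : C) :
    f ▷ V ≫ g ▷ V = 0 := by
  rw [← comp_whiskerRight, h]
  exact (tensorRight V).map_zero _ _

lemma wl_comp_zero {X Y Z : C} {f : X ⟶ Y} {g : Y ⟶ Z} (h : f ≫ g = 0) (V : C) :
    V ◁ f ≫ V ◁ g = 0 := by
  rw [← MonoidalCategory.whiskerLeft_comp, h]
  exact (tensorLeft V).map_zero _ _

/-- Several steps of the towers. -/
inductive Tra : (D D' : Lev R T) → (D'.Eo ⟶ D.Eo) → (D.Lo ⟶ D'.Lo) → Prop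
  | refl (D : Lev R T) : Tra D D (𝟙 _) (𝟙 _)
  | tail {D D' D'' : Lev R T} {σ : D'.Eo ⟶ D.Eo} {ι : D.Lo ⟶ D'.Lo} {σ' : D''.Eo ⟶ D'.Eo}
      {ι' : D'.Lo ⟶ D''.Lo} (h : Tra D D' σ ι) (h' : Step D' D'' σ' ι') :
      Tra D D'' (σ' ≫ σ) (ι ≫ ι')

lemma Tra.trans {D D' D'' : Lev R T} {σ : D'.Eo ⟶ D.Eo} {ι : D.Lo ⟶ D'.Lo}
    {σ' : D''.Eo ⟶ D'.Eo} {ι' : D'.Lo ⟶ D''.Lo} (h : Tra D D' σ ι) (h' : Tra D' D'' σ' ι') :
    Tra D D'' (σ' ≫ σ) (ι ≫ ι') := by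
  induction h' with
  | refl => simpa using h
  | tail h1 h2 ih =>
    have := ih.tail h2
    simpa using this

lemma Tra.props {D D' : Lev R T} {σ : D'.Eo ⟶ D.Eo} {ι : D.Lo ⟶ D'.Lo} (h : Tra D D' σ ι) :
    σ ≫ D.e = D'.e ∧ D'.δ ≫ σ = D.δ ∧ D.a ≫ ι = D'.a ∧ ι ≫ D'.h = D.h := by
  induction h with
  | refl => simp
  | tail h1 h2 ih =>
    obtain ⟨i1, i2, i3, i4⟩ := ih
    refine ⟨by rw [Category.assoc, i1, h2.σe], by rw [← Category.assoc, h2.δσ, i2],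
      by rw [← Category.assoc, i3, h2.aι], by rw [Category.assoc, h2.ιh, i4]⟩

/-- The morphism `α` vanishes after finitely many steps. -/
def Dies (D : Lev R T) (V : C) (α : D.Eo ⟶ D.Lo ⊗ V) : Prop :=
  ∃ (D' : Lev R T) (σ : D'.Eo ⟶ D.Eo) (ι : D.Lo ⟶ D'.Lo), Tra D D' σ ι ∧ σ ≫ α ≫ ι ▷ V = 0

/-- One step makes a morphism which vanishes between the bases null. -/
lemma Step.null {D D' : Lev R T} {σ : D'.Eo ⟶ D.Eo} {ι : D.Lo ⟶ D'.Lo} (hs : Step D D' σ ι)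
    {V : C} (α : D.Eo ⟶ D.Lo ⊗ V) (hα : D.δ ≫ α ≫ D.h ▷ V = 0) :
    (σ ≫ α ≫ ι ▷ V) ≫ sr (sq T.s) (D'.Lo ⊗ V) = 0 := by
  apply null_of_two
  have h1 : D.δ ≫ α ≫ ι ▷ V ≫ sl T.s (D'.Lo ⊗ V) = 0 := by
    have h2 : ι ≫ sl T.s D'.Lo = D.h ≫ T.x₀ ≫ T.B ◁ D.a ≫ T.B ◁ ι := by
      rw [sl_nat, D.rel', Preadditive.add_comp, Category.assoc D.κ', hs.q'ι, comp_zero, add_zero]
      simp only [Category.assoc]
    rw [sl_tensor, ← comp_whiskerRight_assoc, h2, comp_whiskerRight, Category.assoc,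
      ← Category.assoc, ← Category.assoc, Category.assoc D.δ, hα, zero_comp]
  have h3 : σ ≫ sl T.s D.Eo = (σ ≫ D.e ≫ T.x₀) ≫ T.B ◁ D.δ := by
    rw [D.rel, Preadditive.comp_add, ← Category.assoc σ D.q, hs.σq, zero_comp, add_zero]
    simp only [Category.assoc]
  have h4 : (σ ≫ α ≫ ι ▷ V) ≫ sl T.s (D'.Lo ⊗ V) =
      (σ ≫ D.e ≫ T.x₀) ≫ T.B ◁ (D.δ ≫ α ≫ ι ▷ V) := by
    rw [Category.assoc, sl_nat, ← Category.assoc, h3, MonoidalCategory.whiskerLeft_comp T.B D.δ,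
      Category.assoc]
  rw [← Category.assoc, h4, Category.assoc, ← MonoidalCategory.whiskerLeft_comp]
  simp only [Category.assoc]
  rw [h1]
  have : T.B ◁ (0 : T.P ⟶ T.B ⊗ (D'.Lo ⊗ V)) = 0 := (tensorLeft T.B).map_zero _ _
  rw [this]
  simp

variable {K : C} {k : K ⟶ 𝟙_ C} {d : T.B ⊗ T.B ⟶ K⟦(1 : ℤ)⟧}
  (hT : Triangle.mk k (sq T.s) d ∈ distTriang C)

include hT in
/-- Null morphisms factor. -/
lemma factor_of_null {M L V : C} (f : M ⟶ L ⊗ V) (hf : f ≫ sr (sq T.s) (L ⊗ V) = 0) :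
    ∃ g : M ⟶ L ⊗ (V ⊗ K), g ≫ L ◁ ze k V = f := by
  obtain ⟨g, hg⟩ := ce2 (tri_V hT (L ⊗ V)) f hf
  refine ⟨g ≫ (α_ L V K).hom, ?_⟩
  rw [ze_tensor, Category.assoc, Iso.hom_inv_id_assoc, ← hg]

variable {l₀ : Λ} (hyp : Hyp (R l₀) G) (hdeg : ∀ X, G X → ∀ l, (R l).Deg X 0)

include hyp hdeg hT in
/-- The killing lemma. -/
theorem kill {V : C} (hV : ∀ m, NV G (pw V K (m + 1))) {D : Lev R T} (α : D.Eo ⟶ D.Lo ⊗ V)
    (hα : D.δ ≫ α ≫ D.h ▷ V = 0) : Dies D V α := by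
  obtain ⟨n₀, hn₀⟩ := hyp.nilp (hyp.tensor _ _ T.hB T.hB) (hyp.sq_ne_zero T.hB T.hs) hT
  have key : ∀ m : ℕ, ∃ (D' : Lev R T) (σ : D'.Eo ⟶ D.Eo) (ι : D.Lo ⟶ D'.Lo)
      (α' : D'.Eo ⟶ D'.Lo ⊗ pw V K m), Tra D D' σ ι ∧
        σ ≫ α ≫ ι ▷ V = α' ≫ D'.Lo ◁ kp k V m ∧ D'.δ ≫ α' ≫ D'.h ▷ pw V K m = 0 := by
    intro m
    induction m with
    | zero =>
      refine ⟨D, 𝟙 _, 𝟙 _, α, Tra.refl D, ?_, hα⟩
      simp only [kp, Category.id_comp, id_whiskerRight, MonoidalCategory.whiskerLeft_id]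
    | succ m ih =>
      obtain ⟨D', σ, ι, α', h1, h2, h3⟩ := ih
      obtain ⟨D'', σ', ι', hs⟩ := exists_step hyp hdeg D'
      obtain ⟨g, hg⟩ := factor_of_null hT _ (hs.null α' h3)
      refine ⟨D'', σ' ≫ σ, ι ≫ ι', g, h1.tail hs, ?_, ?_⟩
      · rw [comp_whiskerRight]
        have e1 : (σ' ≫ σ) ≫ α ≫ ι ▷ V ≫ ι' ▷ V = σ' ≫ (σ ≫ α ≫ ι ▷ V) ≫ ι' ▷ V := by
          simp only [Category.assoc]
        rw [e1, h2]
        have e2 : σ' ≫ (α' ≫ D'.Lo ◁ kp k V m) ≫ ι' ▷ V =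
            (σ' ≫ α' ≫ ι' ▷ pw V K m) ≫ D''.Lo ◁ kp k V m := by
          simp only [Category.assoc]
          rw [whisker_exchange]
        rw [e2, ← hg, Category.assoc, ← MonoidalCategory.whiskerLeft_comp]
        rfl
      · exact (hV m T.X T.hX).hom_zero (InSh.of T.hP) (by norm_num) _
  obtain ⟨D', σ, ι, α', h1, h2, -⟩ := key n₀
  refine ⟨D', σ, ι, h1, ?_⟩
  rw [h2, hn₀ n₀ le_rfl V]
  have : D'.Lo ◁ (0 : pw V K n₀ ⟶ V) = 0 := (tensorLeft D'.Lo).map_zero _ _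
  rw [this, comp_zero]

/-- The insertion on `V ⊗ K` factors if the one on `V` does. -/
lemma sr_K {V V2 : C} {jj : V ⟶ V2} (hr : ∃ r : V2 ⟶ V ⊗ (T.B ⊗ T.B), sr (sq T.s) V = jj ≫ r) :
    ∃ r : V2 ⊗ K ⟶ (V ⊗ K) ⊗ (T.B ⊗ T.B), sr (sq T.s) (V ⊗ K) = jj ▷ K ≫ r := by
  obtain ⟨r, hr⟩ := hr
  refine ⟨r ▷ K ≫ (exch V (T.B ⊗ T.B) K).hom, ?_⟩
  rw [← comp_whiskerRight_assoc, ← hr]
  simp only [sr, comp_whiskerRight, Category.assoc]
  have h1 := exch_natural_left (C := C) V K (sq T.s)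
  rw [h1]
  have h3 : (ρ_ V).inv ▷ K ≫ (exch V (𝟙_ C) K).hom = (ρ_ (V ⊗ K)).inv := by
    simp [exch]
  rw [← Category.assoc, h3]

lemma sr_pw {V V2 : C} {jj : V ⟶ V2} (hr : ∃ r : V2 ⟶ V ⊗ (T.B ⊗ T.B), sr (sq T.s) V = jj ≫ r)
    (m : ℕ) : ∃ r : pw V2 K m ⟶ pw V K m ⊗ (T.B ⊗ T.B),
      sr (sq T.s) (pw V K m) = pwMap jj K m ≫ r := by
  induction m with
  | zero => exact hr
  | succ m ih => exact sr_K ih

include hyp hdeg hT in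
/-- The killing lemma for coefficients which are only embedded in an object of `G`. -/
theorem kill' {V V2 : C} (jj : V ⟶ V2)
    (hr : ∃ r : V2 ⟶ V ⊗ (T.B ⊗ T.B), sr (sq T.s) V = jj ≫ r) (hV2 : G V2) {D : Lev R T}
    (α : D.Eo ⟶ D.Lo ⊗ V) (hα : D.δ ≫ α ≫ D.h ▷ V = 0) : Dies D V α := by
  have hBB := hyp.tensor _ _ T.hB T.hB
  have hsq := hyp.sq_ne_zero T.hB T.hs
  obtain ⟨n₀, hn₀⟩ := hyp.nilp hBB hsq hT
  have hNV : ∀ m i, NV G (pw (pw V2 K m) K (i + 1)) := by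
    intro m i
    cases m with
    | zero => exact NV.pw hyp hT hBB hsq hV2 i
    | succ m => exact NV.pw' hyp hT hBB (NV.pw hyp hT hBB hsq hV2 m) (i + 1)
  have key : ∀ m : ℕ, ∃ (D' : Lev R T) (σ : D'.Eo ⟶ D.Eo) (ι : D.Lo ⟶ D'.Lo)
      (α' : D'.Eo ⟶ D'.Lo ⊗ pw V K m), Tra D D' σ ι ∧
        σ ≫ α ≫ ι ▷ V = α' ≫ D'.Lo ◁ kp k V m ∧
        D'.δ ≫ (α' ≫ D'.Lo ◁ pwMap jj K m) ≫ D'.h ▷ pw V2 K m = 0 := by
    intro m
    induction m with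
    | zero =>
      refine ⟨D, 𝟙 _, 𝟙 _, α, Tra.refl D, ?_, ?_⟩
      · simp only [kp, Category.id_comp, id_whiskerRight, MonoidalCategory.whiskerLeft_id]
      · have : (α ≫ D.Lo ◁ pwMap jj K 0) ≫ D.h ▷ pw V2 K 0 =
            (α ≫ D.h ▷ V) ≫ T.X ◁ jj := by
          simp only [pwMap, Category.assoc]
          rw [whisker_exchange]
        rw [this, ← Category.assoc, hα, zero_comp]
    | succ m ih =>
      obtain ⟨D', σ, ι, α', h1, h2, h3⟩ := ih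
      obtain ⟨D'', σ', ι', h4, h5⟩ := kill hT hyp hdeg (hNV m) _ h3
      obtain ⟨r, hr⟩ := sr_pw (K := K) hr m
      have hnull : (σ' ≫ α' ≫ ι' ▷ pw V K m) ≫ sr (sq T.s) (D''.Lo ⊗ pw V K m) = 0 := by
        rw [sr_tensor, hr, MonoidalCategory.whiskerLeft_comp]
        have : (σ' ≫ α' ≫ ι' ▷ pw V K m) ≫ D''.Lo ◁ pwMap jj K m =
            σ' ≫ (α' ≫ D'.Lo ◁ pwMap jj K m) ≫ ι' ▷ pw V2 K m := by
          simp only [Category.assoc]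
          rw [whisker_exchange]
        rw [Category.assoc (D''.Lo ◁ pwMap jj K m), ← Category.assoc _ (D''.Lo ◁ pwMap jj K m),
          this, h5, zero_comp]
      obtain ⟨g, hg⟩ := factor_of_null hT _ hnull
      refine ⟨D'', σ' ≫ σ, ι ≫ ι', g, h1.trans h4, ?_, ?_⟩
      · rw [comp_whiskerRight]
        have e1 : (σ' ≫ σ) ≫ α ≫ ι ▷ V ≫ ι' ▷ V = σ' ≫ (σ ≫ α ≫ ι ▷ V) ≫ ι' ▷ V := by
          simp only [Category.assoc]
        rw [e1, h2]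
        have e2 : σ' ≫ (α' ≫ D'.Lo ◁ kp k V m) ≫ ι' ▷ V =
            (σ' ≫ α' ≫ ι' ▷ pw V K m) ≫ D''.Lo ◁ kp k V m := by
          simp only [Category.assoc]
          rw [whisker_exchange]
        rw [e2, ← hg, Category.assoc, ← MonoidalCategory.whiskerLeft_comp]
        rfl
      · exact (NV.pw hyp hT hBB hsq hV2 m T.X T.hX).hom_zero (InSh.of T.hP) (by norm_num) _
  obtain ⟨D', σ, ι, α', h1, h2, -⟩ := key n₀
  refine ⟨D', σ, ι, h1, ?_⟩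
  rw [h2, hn₀ n₀ le_rfl V]
  have : D'.Lo ◁ (0 : pw V K n₀ ⟶ V) = 0 := (tensorLeft D'.Lo).map_zero _ _
  rw [this, comp_zero]

end

end Pool.Agent.T6.H13.GP
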