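import Pool.Agent.T6.H13.GP.Image

/-!
# Kernels and cokernels up to a section, from antisymmetrizers
-/

set_option autoImplicit false
set_option linter.unusedSectionVars false
set_option linter.unusedSimpArgs false
set_option backward.isDefEq.respectTransparency false
set_option backward.defeqAttrib.useBackward true

open CategoryTheory Limits MonoidalCategory Pretriangulated Triangulated

namespace Pool.Agent.T6.H13.GP

open Pool.Agent.Y116.MT Pool.Agent.V1178.MT Pool.Agent.T6.H13.MT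

universe v u w v' u' w'

section

variable {C : Type u} [Category.{v} C] [MonoidalCategory C] [SymmetricCategory C] [Preadditive C]
  [MonoidalPreadditive C]

/-- The antisymmetrized power of a morphism. -/
def apm {X Y : C} (f : X ⟶ Y) (n : ℕ) : pw (𝟙_ C) X n ⟶ pw (𝟙_ C) Y n :=
  al (-1) (𝟙_ C) X n ≫ pm (𝟙 (𝟙_ C)) f n

lemma apm' {X Y : C} (f : X ⟶ Y) (n : ℕ) :
    apm f n = pm (𝟙 (𝟙_ C)) f n ≫ al (-1) (𝟙_ C) Y n := al_pm _ _ _ _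

lemma mv_kill {X Y U : C} (f : X ⟶ Y) (n : U ⟶ X) (hn : n ≫ f = 0) (r : ℕ) (j : Fin (r + 1)) :
    (pw (𝟙_ C) X (r + 1) ◁ n) ≫ mv (𝟙_ C) X (r + 1) j.castSucc ≫ (apm f (r + 1) ▷ X) = 0 := by
  rw [mv_castSucc, Category.assoc, whisker_exchange_assoc, ← Category.assoc (_ ◁ n),
    exch_natural, Category.assoc, ← comp_whiskerRight]
  have h1 : (pw (𝟙_ C) X r ◁ n) ≫ apm f (r + 1) = 0 := by
    rw [apm']
    have h2 : pm (𝟙 (𝟙_ C)) f (r + 1) = pw (𝟙_ C) X r ◁ f ≫ pm (𝟙 (𝟙_ C)) f r ▷ Y := by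
      change pm (𝟙 (𝟙_ C)) f r ⊗ₘ f = _
      rw [MonoidalCategory.tensorHom_def']
    rw [h2, ← Category.assoc, ← Category.assoc, wl_comp_zero hn, zero_comp, zero_comp]
  rw [h1]
  have : (0 : pw (𝟙_ C) X r ⊗ U ⟶ pw (𝟙_ C) Y (r + 1)) ▷ X = 0 := (tensorRight X).map_zero _ _
  rw [this, comp_zero, comp_zero]
where
  wl_comp_zero {X Y Z : C} {f : X ⟶ Y} {g : Y ⟶ Z} {V : C} (h : f ≫ g = 0) :
      V ◁ f ≫ V ◁ g = 0 := by
    rw [← MonoidalCategory.whiskerLeft_comp, h]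
    exact (tensorLeft V).map_zero _ _

/-- The kernel formula. -/
lemma ker_formula {X Y U : C} (f : X ⟶ Y) (n : U ⟶ X) (hn : n ≫ f = 0) (r : ℕ) :
    (pw (𝟙_ C) X r ◁ n) ≫ al (-1) (𝟙_ C) X (r + 1) ≫ pm (𝟙 (𝟙_ C)) f r ▷ X =
      (pw (𝟙_ C) X r ◁ n) ≫ apm f r ▷ X := by
  have h0 : al (-1) (𝟙_ C) X (r + 1) ≫ pm (𝟙 (𝟙_ C)) f r ▷ X = ∑ i : Fin (r + 1),
      ((-1 : ℤ) ^ (r + i.val)) • (mv (𝟙_ C) X r i ≫ apm f r ▷ X) := by
    simp only [al, Preadditive.sum_comp, Preadditive.zsmul_comp, Category.assoc, apm,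
      comp_whiskerRight]
  rw [h0, Preadditive.comp_sum, Finset.sum_eq_single (Fin.last r)]
  · rw [mv_last, Category.id_comp, Fin.val_last, Even.neg_one_pow ⟨r, rfl⟩, one_zsmul]
  · intro i _ hi
    cases r with
    | zero => exact absurd (Subsingleton.elim (α := Fin 1) _ _) hi
    | succ r =>
      obtain ⟨j, rfl⟩ := Fin.exists_castSucc_eq.2 hi
      rw [Preadditive.comp_zsmul, mv_kill f n hn, smul_zero]
  · intro h
    exact absurd (Finset.mem_univ _) h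

lemma mv_kill' {P X M : C} (g : P ⟶ X) (m : X ⟶ M) (hm : g ≫ m = 0) (r : ℕ) (j : Fin (r + 1)) :
    (pm (𝟙 (𝟙_ C)) g (r + 1) ▷ X) ≫ mv (𝟙_ C) X (r + 1) j.castSucc ≫
      (al (-1) (𝟙_ C) X (r + 1) ▷ X) ≫ (pw (𝟙_ C) X (r + 1) ◁ m) = 0 := by
  rw [mv_castSucc]
  have h1 : (pm (𝟙 (𝟙_ C)) g (r + 1) ▷ X) ≫ (mv (𝟙_ C) X r j ▷ X) =
      (mv (𝟙_ C) P r j ▷ X) ≫ (pm (𝟙 (𝟙_ C)) g (r + 1) ▷ X) := by
    rw [← comp_whiskerRight, ← comp_whiskerRight, mv_pm]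
  have h2 : pm (𝟙 (𝟙_ C)) g (r + 1) = pm (𝟙 (𝟙_ C)) g r ▷ P ≫ pw (𝟙_ C) X r ◁ g := by
    change pm (𝟙 (𝟙_ C)) g r ⊗ₘ g = _
    rw [MonoidalCategory.tensorHom_def]
  have h3 : (pm (𝟙 (𝟙_ C)) g (r + 1) ▷ X) ≫ (exch (pw (𝟙_ C) X r) X X).hom =
      (pm (𝟙 (𝟙_ C)) g r ▷ P) ▷ X ≫ (exch (pw (𝟙_ C) X r) P X).hom ≫
        (pw (𝟙_ C) X r ⊗ X) ◁ g := by
    rw [h2, comp_whiskerRight, Category.assoc, exch_natural_left]
  rw [Category.assoc, ← Category.assoc, h1, Category.assoc,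
    ← Category.assoc (pm (𝟙 (𝟙_ C)) g (r + 1) ▷ X), h3]
  simp only [Category.assoc]
  have h4 : (pw (𝟙_ C) X r ⊗ X) ◁ g ≫ (al (-1) (𝟙_ C) X (r + 1) ▷ X) ≫
      (pw (𝟙_ C) X (r + 1) ◁ m) = 0 := by
    rw [whisker_exchange_assoc]
    have : (pw (𝟙_ C) X (r + 1)) ◁ g ≫ (pw (𝟙_ C) X (r + 1) ◁ m) = 0 := by
      rw [← MonoidalCategory.whiskerLeft_comp, hm]
      exact (tensorLeft _).map_zero _ _
    rw [this, comp_zero]
  rw [h4, comp_zero, comp_zero, comp_zero]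

/-- The cokernel formula. -/
lemma coker_formula {P X M : C} (g : P ⟶ X) (m : X ⟶ M) (hm : g ≫ m = 0) (r : ℕ) :
    pm (𝟙 (𝟙_ C)) g r ▷ X ≫ al (-1) (𝟙_ C) X (r + 1) ≫ pw (𝟙_ C) X r ◁ m =
      (pw (𝟙_ C) P r ◁ m) ≫ apm g r ▷ M := by
  have h0 : pm (𝟙 (𝟙_ C)) g r ▷ X ≫ al (-1) (𝟙_ C) X (r + 1) ≫ pw (𝟙_ C) X r ◁ m =
      ∑ i : Fin (r + 1), ((-1 : ℤ) ^ (r + i.val)) • (pm (𝟙 (𝟙_ C)) g r ▷ X ≫ mv (𝟙_ C) X r i ≫
        (al (-1) (𝟙_ C) X r ▷ X) ≫ pw (𝟙_ C) X r ◁ m) := by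
    simp only [al, Preadditive.sum_comp, Preadditive.comp_sum, Preadditive.zsmul_comp,
      Preadditive.comp_zsmul, Category.assoc]
  rw [h0, Finset.sum_eq_single (Fin.last r)]
  · rw [mv_last, Category.id_comp, Fin.val_last, Even.neg_one_pow ⟨r, rfl⟩, one_zsmul,
      ← comp_whiskerRight_assoc, ← apm', ← whisker_exchange]
  · intro i _ hi
    cases r with
    | zero => exact absurd (Subsingleton.elim (α := Fin 1) _ _) hi
    | succ r =>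
      obtain ⟨j, rfl⟩ := Fin.exists_castSucc_eq.2 hi
      rw [mv_kill' g m hm, smul_zero]
  · intro h
    exact absurd (Finset.mem_univ _) h

end

section

variable {C : Type u} [Category.{v} C] [MonoidalCategory C]

/-- Currying with an exact pairing. -/
lemma cur_whisker {D D' : C} [ExactPairing D' D] {Y : C} (a : D ⟶ Y) (M : C) :
    (tensorLeftHomEquiv M D' D (Y ⊗ M)) (a ▷ M) ≫ (α_ D' Y M).inv =
      sl (η_ D' D ≫ D' ◁ a) M := by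
  simp only [tensorLeftHomEquiv, Equiv.coe_fn_mk, sl, comp_whiskerRight, Category.assoc]
  rw [associator_inv_naturality_middle, Iso.hom_inv_id_assoc]

lemma cur_comp {D D' : C} [ExactPairing D' D] {M Z Z' : C} (f : D ⊗ M ⟶ Z) (g : Z ⟶ Z') :
    (tensorLeftHomEquiv M D' D Z') (f ≫ g) = (tensorLeftHomEquiv M D' D Z) f ≫ D' ◁ g :=
  tensorLeftHomEquiv_naturality f g

lemma cur_pre {D D' : C} [ExactPairing D' D] {M M' Z : C} (n : M' ⟶ M) (f : D ⊗ M ⟶ Z) :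
    n ≫ (tensorLeftHomEquiv M D' D Z) f = (tensorLeftHomEquiv M' D' D Z) ((D ◁ n) ≫ f) := by
  apply (tensorLeftHomEquiv M' D' D Z).symm.injective
  rw [tensorLeftHomEquiv_symm_naturality, Equiv.symm_apply_apply, Equiv.symm_apply_apply]

end

section

variable {C : Type u} [Category.{v} C] [Preadditive C] [HasZeroObject C] [HasShift C ℤ]
  [∀ n : ℤ, (shiftFunctor C n).Additive] [Pretriangulated C] [IsTriangulated C]
  [MonoidalCategory C]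
  [SymmetricCategory C] [TensorTriangulated C] [MonoidalPreadditive C] [RightRigidCategory C]
  {E : Type w} [Field E] {R : Realisation C E} {G : ObjectProperty C} (h : Hyp R G)

lemma cur_zero {D D' : C} [ExactPairing D' D] {M Z : C} :
    (tensorLeftHomEquiv M D' D Z) 0 = 0 := by
  simp [tensorLeftHomEquiv]

include h in
lemma Hyp.pw_mem {X : C} (hX : G X) (n : ℕ) : G (pw (𝟙_ C) X n) := by
  induction n with
  | zero => exact h.unit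
  | succ n ih => exact h.tensor _ _ ih hX

include h in
lemma Hyp.al_zero {X : C} (hX : G X) : ∃ n : ℕ, al (-1) (𝟙_ C) X n = 0 := by
  refine ⟨Module.finrank E (R.H.obj X) + 1, ?_⟩
  apply h.faithful (h.pw_mem hX _) (h.pw_mem hX _)
  have h1 := kap_iso (R := R) (fun n => h.deg _ (h.pw_mem hX n))
    (Module.finrank E (R.H.obj X) + 1)
  rw [← cancel_epi (kap R.H (𝟙_ C) X (Module.finrank E (R.H.obj X) + 1)), ← al_lax, al_neg_one,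
    alt_vec_zero _ _ _ (Nat.lt_succ_self _), zero_comp, comp_zero]

include h in
/-- The rank of a morphism. -/
lemma Hyp.rank {X Y : C} (hX : G X) (f : X ⟶ Y) :
    ∃ r : ℕ, apm f r ≠ 0 ∧ apm f (r + 1) = 0 := by
  classical
  obtain ⟨n, hn⟩ := h.al_zero hX
  have h1 : ∃ n, apm f n = 0 := ⟨n, by rw [apm, hn, zero_comp]⟩
  have h2 := Nat.find_spec h1
  have h3 : Nat.find h1 ≠ 0 := by
    intro h4
    rw [h4] at h2
    have h5 : apm f 0 = 𝟙 _ := by simp [apm, al, pm]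
    rw [h5] at h2
    exact not_isZero_unit R ((IsZero.iff_id_eq_zero _).2 h2)
  obtain ⟨r, hr⟩ := Nat.exists_eq_succ_of_ne_zero h3
  refine ⟨r, Nat.find_min h1 (by omega), ?_⟩
  rw [hr] at h2
  exact h2

include h in
lemma Hyp.exists_dual {D : C} (hD : G D) :
    ∃ D' : C, G D' ∧ Nonempty (ExactPairing D' D) :=
  ⟨_, h.dual _ hD, ⟨BraidedCategory.exactPairing_swap D _⟩⟩

include h in
/-- The kernel tool. -/
theorem Hyp.toolK {X Y : C} (hX : G X) (hY : G Y) (f : X ⟶ Y) :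
    ∃ (B : C) (s : 𝟙_ C ⟶ B) (e : X ⟶ B ⊗ X), G B ∧ s ≠ 0 ∧ e ≫ B ◁ f = 0 ∧
      ∀ (U : C) (n : U ⟶ X), n ≫ f = 0 → n ≫ e = n ≫ sl s X := by
  obtain ⟨r, h1, h2⟩ := h.rank hX f
  obtain ⟨D', hD', ⟨hDD⟩⟩ := h.exists_dual (h.pw_mem hX r)
  refine ⟨D' ⊗ pw (𝟙_ C) Y r, η_ D' (pw (𝟙_ C) X r) ≫ D' ◁ apm f r,
    (tensorLeftHomEquiv X D' (pw (𝟙_ C) X r) (pw (𝟙_ C) Y r ⊗ X))
      (al (-1) (𝟙_ C) X (r + 1) ≫ pm (𝟙 (𝟙_ C)) f r ▷ X) ≫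
      (α_ D' (pw (𝟙_ C) Y r) X).inv, h.tensor _ _ hD' (h.pw_mem hY r),
      ?_, ?_, ?_⟩
  · intro h3
    apply h1
    have h4 := cur_whisker (D' := D') (apm f r) (𝟙_ C)
    rw [h3] at h4
    have h5 : sl (0 : 𝟙_ C ⟶ D' ⊗ pw (𝟙_ C) Y r) (𝟙_ C) = 0 := by
      have : (0 : 𝟙_ C ⟶ D' ⊗ pw (𝟙_ C) Y r) ▷ (𝟙_ C) = 0 := (tensorRight _).map_zero _ _
      rw [sl, this, comp_zero]
    rw [h5] at h4
    have h6 : (tensorLeftHomEquiv (𝟙_ C) D' (pw (𝟙_ C) X r) (pw (𝟙_ C) Y r ⊗ 𝟙_ C)) (apm f r ▷ 𝟙_ C) = 0 := by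
      rw [← cancel_mono (α_ D' (pw (𝟙_ C) Y r) (𝟙_ C)).inv, h4, zero_comp]
    have h7 : apm f r ▷ 𝟙_ C = 0 := by
      apply (tensorLeftHomEquiv (𝟙_ C) D' (pw (𝟙_ C) X r) (pw (𝟙_ C) Y r ⊗ 𝟙_ C)).injective
      rw [h6, cur_zero]
    rw [← cancel_epi (ρ_ (pw (𝟙_ C) X r)).hom, ← rightUnitor_naturality, h7, zero_comp, comp_zero]
  · rw [Category.assoc, ← associator_inv_naturality_right, ← Category.assoc, ← cur_comp,
      Category.assoc, ← MonoidalCategory.tensorHom_def]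
    have h3 : al (-1) (𝟙_ C) X (r + 1) ≫ (pm (𝟙 (𝟙_ C)) f r ⊗ₘ f) = 0 := h2
    rw [h3, cur_zero, zero_comp]
  · intro U n hn
    rw [← Category.assoc, cur_pre, ker_formula f n hn, ← cur_pre, Category.assoc, cur_whisker]

include h in
/-- The cokernel tool. -/
theorem Hyp.toolC {P X : C} (hP : G P) (hX : G X) (g : P ⟶ X) :
    ∃ (X₁ : C) (c : X ⟶ X₁) (B : C) (s : 𝟙_ C ⟶ B), G X₁ ∧ G B ∧ s ≠ 0 ∧ g ≫ c = 0 ∧
      ∀ (M : C) (m : X ⟶ M), g ≫ m = 0 → ∃ θ : X₁ ⟶ B ⊗ M, m ≫ sl s M = c ≫ θ := by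
  obtain ⟨r, h1, h2⟩ := h.rank hP g
  obtain ⟨D', hD', ⟨hDD⟩⟩ := h.exists_dual (h.pw_mem hP r)
  refine ⟨D' ⊗ pw (𝟙_ C) X (r + 1),
    (tensorLeftHomEquiv X D' (pw (𝟙_ C) P r) (pw (𝟙_ C) X (r + 1)))
      (pm (𝟙 (𝟙_ C)) g r ▷ X ≫ al (-1) (𝟙_ C) X (r + 1)),
    D' ⊗ pw (𝟙_ C) X r, η_ D' (pw (𝟙_ C) P r) ≫ D' ◁ apm g r,
    h.tensor _ _ hD' (h.pw_mem hX (r + 1)),
    h.tensor _ _ hD' (h.pw_mem hX r), ?_, ?_, ?_⟩
  · intro h3
    apply h1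
    have h4 := cur_whisker (D' := D') (apm g r) (𝟙_ C)
    rw [h3] at h4
    have h5 : sl (0 : 𝟙_ C ⟶ D' ⊗ pw (𝟙_ C) X r) (𝟙_ C) = 0 := by
      have : (0 : 𝟙_ C ⟶ D' ⊗ pw (𝟙_ C) X r) ▷ (𝟙_ C) = 0 := (tensorRight _).map_zero _ _
      rw [sl, this, comp_zero]
    rw [h5] at h4
    have h6 : (tensorLeftHomEquiv (𝟙_ C) D' (pw (𝟙_ C) P r) (pw (𝟙_ C) X r ⊗ 𝟙_ C)) (apm g r ▷ 𝟙_ C) = 0 := by
      rw [← cancel_mono (α_ D' (pw (𝟙_ C) X r) (𝟙_ C)).inv, h4, zero_comp]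
    have h7 : apm g r ▷ 𝟙_ C = 0 := by
      apply (tensorLeftHomEquiv (𝟙_ C) D' (pw (𝟙_ C) P r) (pw (𝟙_ C) X r ⊗ 𝟙_ C)).injective
      rw [h6, cur_zero]
    rw [← cancel_epi (ρ_ (pw (𝟙_ C) P r)).hom, ← rightUnitor_naturality, h7, zero_comp, comp_zero]
  · rw [cur_pre, ← Category.assoc]
    have h3 : (pw (𝟙_ C) P r) ◁ g ≫ pm (𝟙 (𝟙_ C)) g r ▷ X = pm (𝟙 (𝟙_ C)) g (r + 1) := by
      change _ = pm (𝟙 (𝟙_ C)) g r ⊗ₘ g
      rw [MonoidalCategory.tensorHom_def']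
    rw [h3, ← apm', h2, cur_zero]
  · intro M m hm
    refine ⟨D' ◁ (pw (𝟙_ C) X r ◁ m) ≫ (α_ D' (pw (𝟙_ C) X r) M).inv, ?_⟩
    rw [← Category.assoc (tensorLeftHomEquiv X D' (pw (𝟙_ C) P r) _ _), ← cur_comp, Category.assoc,
      coker_formula g m hm, ← cur_pre, Category.assoc, cur_whisker]

end

end Pool.Agent.T6.H13.GP
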